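import Pool.Agent.Helper7_ABCT.Comb

/-!
# Module VCLU of the squad ABCT: the minimal cluster
-/

set_option autoImplicit false

namespace ABCT.H7

open Finset

theorem pos_lt {l : List ℕ} {x : ℕ} (h : x ∈ l) : l.idxOf x < l.length := List.idxOf_lt_length_iff.2 h

theorem getD_pos {l : List ℕ} {x : ℕ} (h : x ∈ l) : l.getD (l.idxOf x) 0 = x := by
  rw [List.getD_eq_getElem _ _ (pos_lt h)]
  exact List.getElem_idxOf _

theorem pos_getD {l : List ℕ} (hl : l.Nodup) {p : ℕ} (hp : p < l.length) :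
    l.idxOf (l.getD p 0) = p := by
  rw [List.getD_eq_getElem _ _ hp]
  exact hl.idxOf_getElem p hp

theorem getD_mem {l : List ℕ} {p : ℕ} (hp : p < l.length) : l.getD p 0 ∈ l := by
  rw [List.getD_eq_getElem _ _ hp]
  exact List.getElem_mem hp

theorem mem_prsAll {l : List ℕ} {I : Finset ℕ} {p : ℕ × ℕ} :
    p ∈ prsAll l I ↔ p.1 < l.length ∧ p.2 < l.length ∧ p.1 < p.2 ∧ l.getD p.1 0 ∈ I ∧
      l.getD p.2 0 ∈ I := by
  simp only [prsAll, mem_filter, mem_product, mem_range]
  tauto

section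
variable {Γ : Type*} [CommMonoid Γ]

/-- product over pairs -/
def FP (l : List ℕ) (D : ℕ → ℕ → Γ) (I : Finset ℕ) : Γ :=
  ∏ p ∈ prsAll l I, D (l.getD p.2 0) (l.getD p.1 0)

theorem FP_insert (l : List ℕ) (hl : l.Nodup) (D : ℕ → ℕ → Γ) (hD : ∀ x y, D x y = D y x) (a : ℕ)
    (K : Finset ℕ) (ha : a ∈ l) (haK : a ∉ K) (hK : ∀ x ∈ K, x ∈ l) :
    FP l D (insert a K) = FP l D K * ∏ x ∈ K, D a x := by
  unfold FP
  rw [← Finset.prod_filter_mul_prod_filter_not (prsAll l (insert a K))
    (fun p => l.getD p.1 0 ≠ a ∧ l.getD p.2 0 ≠ a)]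
  congr 1
  · apply Finset.prod_congr _ (fun _ _ => rfl)
    ext p
    simp only [mem_filter, mem_prsAll, mem_insert]
    constructor
    · rintro ⟨⟨h1, h2, h3, h4, h5⟩, h6, h7⟩
      exact ⟨h1, h2, h3, h4.resolve_left h6, h5.resolve_left h7⟩
    · rintro ⟨h1, h2, h3, h4, h5⟩
      refine ⟨⟨h1, h2, h3, Or.inr h4, Or.inr h5⟩, ?_, ?_⟩
      · intro h
        exact haK (h ▸ h4)
      · intro h
        exact haK (h ▸ h5)
  · symm
    refine Finset.prod_nbij' (fun x => if l.idxOf x < l.idxOf a then (l.idxOf x, l.idxOf a)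
      else (l.idxOf a, l.idxOf x)) (fun p => if l.getD p.1 0 = a then l.getD p.2 0 else l.getD p.1 0)
      ?_ ?_ ?_ ?_ ?_
    · intro x hx
      have hxa : x ≠ a := fun h => haK (h ▸ hx)
      have hne : l.idxOf x ≠ l.idxOf a := by
        intro h
        have := congrArg (fun p => l.getD p 0) h
        simp only [getD_pos (hK x hx), getD_pos ha] at this
        exact hxa this
      simp only [mem_filter, mem_prsAll, mem_insert]
      split_ifs with h1
      · simp only [getD_pos (hK x hx), getD_pos ha, pos_lt (hK x hx), pos_lt ha, h1, hx,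
          or_true, true_or, ne_eq, not_true_eq_false, and_false, not_false_eq_true, and_self]
      · have h2 : l.idxOf a < l.idxOf x := by omega
        simp only [getD_pos (hK x hx), getD_pos ha, pos_lt (hK x hx), pos_lt ha, h2, hx,
          or_true, true_or, ne_eq, not_true_eq_false, false_and, not_false_eq_true, and_self]
    · intro p hp
      simp only [mem_filter, mem_prsAll, mem_insert] at hp
      obtain ⟨⟨h1, h2, h3, h4, h5⟩, h6⟩ := hp
      have hne : l.getD p.1 0 ≠ l.getD p.2 0 := by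
        intro h
        have := congrArg (fun x => l.idxOf x) h
        simp only [pos_getD hl h1, pos_getD hl h2] at this
        omega
      show (if l.getD p.1 0 = a then l.getD p.2 0 else l.getD p.1 0) ∈ K
      split_ifs with h7
      · rcases h5 with h5 | h5
        · exact absurd (h7.trans h5.symm) hne
        · exact h5
      · exact h4.resolve_left h7
    · intro x hx
      have hxa : x ≠ a := fun h => haK (h ▸ hx)
      show (if l.getD (if l.idxOf x < l.idxOf a then (l.idxOf x, l.idxOf a)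
        else (l.idxOf a, l.idxOf x)).1 0 = a then l.getD (if l.idxOf x < l.idxOf a then
        (l.idxOf x, l.idxOf a) else (l.idxOf a, l.idxOf x)).2 0 else l.getD (if l.idxOf x <
        l.idxOf a then (l.idxOf x, l.idxOf a) else (l.idxOf a, l.idxOf x)).1 0) = x
      by_cases h1 : l.idxOf x < l.idxOf a
      · rw [if_pos h1]
        simp only [getD_pos (hK x hx), if_neg hxa]
      · rw [if_neg h1]
        simp only [getD_pos (hK x hx), getD_pos ha, if_true]
    · intro p hp
      simp only [mem_filter, mem_prsAll, mem_insert] at hp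
      obtain ⟨⟨h1, h2, h3, h4, h5⟩, h6⟩ := hp
      have hne : l.getD p.1 0 ≠ l.getD p.2 0 := by
        intro h
        have := congrArg (fun x => l.idxOf x) h
        simp only [pos_getD hl h1, pos_getD hl h2] at this
        omega
      by_cases h7 : l.getD p.1 0 = a
      · simp only [h7, if_true]
        rw [if_neg]
        · ext
          · simp only [← h7, pos_getD hl h1]
          · simp only [pos_getD hl h2]
        · rw [← h7, pos_getD hl h1, pos_getD hl h2]
          omega
      · simp only [h7, if_false]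
        have h8 : l.getD p.2 0 = a := by
          by_contra h8
          exact h6 ⟨h7, h8⟩
        rw [if_pos]
        · ext
          · simp only [pos_getD hl h1]
          · simp only [← h8, pos_getD hl h2]
        · rw [← h8, pos_getD hl h1, pos_getD hl h2]
          exact h3
    · intro x hx
      show D a x = D (l.getD (if l.idxOf x < l.idxOf a then (l.idxOf x, l.idxOf a)
        else (l.idxOf a, l.idxOf x)).2 0) (l.getD (if l.idxOf x < l.idxOf a then
        (l.idxOf x, l.idxOf a) else (l.idxOf a, l.idxOf x)).1 0)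
      by_cases h1 : l.idxOf x < l.idxOf a
      · rw [if_pos h1]
        simp only [getD_pos (hK x hx), getD_pos ha]
      · rw [if_neg h1]
        simp only [getD_pos (hK x hx), getD_pos ha]
        exact hD a x

end

section
variable {Γ : Type*} [LinearOrderedCommGroupWithZero Γ]

/-- the value of a basis -/
def FV (l : List ℕ) (g : ℕ → Γ) (D : ℕ → ℕ → Γ) (I : Finset ℕ) : Γ := (∏ i ∈ I, g i) * FP l D I

theorem FV_insert (l : List ℕ) (hl : l.Nodup) (g : ℕ → Γ) (D : ℕ → ℕ → Γ)
    (hD : ∀ x y, D x y = D y x) (a : ℕ) (K : Finset ℕ) (ha : a ∈ l) (haK : a ∉ K)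
    (hK : ∀ x ∈ K, x ∈ l) : FV l g D (insert a K) = FV l g D K * (g a * ∏ x ∈ K, D a x) := by
  rw [FV, FV, FP_insert l hl D hD a K ha haK hK, Finset.prod_insert haK]
  ac_rfl

theorem FV_insert2 (l : List ℕ) (hl : l.Nodup) (g : ℕ → Γ) (D : ℕ → ℕ → Γ)
    (hD : ∀ x y, D x y = D y x) (a b : ℕ) (K : Finset ℕ) (ha : a ∈ l) (hb : b ∈ l) (hab : a ≠ b)
    (haK : a ∉ K) (hbK : b ∉ K) (hK : ∀ x ∈ K, x ∈ l) :
    FV l g D (insert a (insert b K)) = FV l g D K * (g a * ∏ x ∈ K, D a x) *
      (g b * ∏ x ∈ K, D b x) * D a b := by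
  rw [FV_insert l hl g D hD a (insert b K) ha (by simp [hab, haK]) (by
    intro x hx
    rcases Finset.mem_insert.1 hx with rfl | hx
    · exact hb
    · exact hK x hx), FV_insert l hl g D hD b K hb hbK hK, Finset.prod_insert hbK]
  ac_rfl

theorem cluster_abs (l : List ℕ) (hl : l.Nodup) (r : ℕ) (hr : 2 ≤ r) (hn : r + 2 ≤ l.length)
    (P : Finset ℕ → Prop) (hP : ∀ I, P I → I ∈ l.toFinset.powersetCard r)
    (hex : ∀ I I' : Finset ℕ, P I → P I' → ∀ e ∈ I, e ∉ I' → ∃ f ∈ I', f ∉ I ∧
      P (insert f (I.erase e)) ∧ P (insert e (I'.erase f)))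
    (g : ℕ → Γ) (D : ℕ → ℕ → Γ) (hg : ∀ i ∈ l, g i ≠ 0) (hD : ∀ x y, D x y = D y x)
    (hDt : ∀ x y u, D x y ≤ max (D x u) (D u y)) (hD0 : ∀ x ∈ l, ∀ y ∈ l, x ≠ y → D x y ≠ 0)
    (hDs : ∀ x, D x x = 0)
    (q₀ : Γ) (hq₀ : q₀ ≠ 0) (hle : ∀ I ∈ l.toFinset.powersetCard r, FV l g D I ≤ q₀)
    (hiff : ∀ I ∈ l.toFinset.powersetCard r, P I ↔ FV l g D I = q₀)
    (halive : ∀ i ∈ l, (∃ I, P I ∧ i ∈ I) ∧ (∃ I, P I ∧ i ∉ I))
    (hnot : ∃ I ∈ l.toFinset.powersetCard r, ¬ P I) :
    ∃ A ⊆ l.toFinset, 2 ≤ A.card ∧ A.card + 2 ≤ l.length ∧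
      (∀ I I', P I → P I' → (I ∩ A).card ≤ (I' ∩ A).card + 1) ∧
      (∀ I, P I → ∀ a ∈ A, a ∈ I → ∀ b ∈ A, b ∉ I → P (insert b (I.erase a))) := by
  have hcardl : l.toFinset.card = l.length := List.toFinset_card_of_nodup hl
  have hsub : ∀ I, P I → ∀ x ∈ I, x ∈ l := fun I hI x hx =>
    List.mem_toFinset.1 ((Finset.mem_powersetCard.1 (hP I hI)).1 hx)
  have hcard : ∀ I, P I → I.card = r := fun I hI => (Finset.mem_powersetCard.1 (hP I hI)).2
  -- the minimal distance
  obtain ⟨⟨i, j⟩, hij, hmin⟩ := Finset.exists_min_image l.toFinset.offDiag (fun p => D p.1 p.2) (by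
    rw [← Finset.card_pos, Finset.offDiag_card, hcardl]
    have : 2 * l.length ≤ l.length * l.length := Nat.mul_le_mul_right _ (by omega)
    omega)
  rw [Finset.mem_offDiag] at hij
  simp only [List.mem_toFinset] at hij
  obtain ⟨hi, hj, hij⟩ := hij
  have hmin' : ∀ x ∈ l, ∀ y ∈ l, x ≠ y → D i j ≤ D x y := by
    intro x hx y hy hxy
    exact hmin (x, y) (Finset.mem_offDiag.2 ⟨List.mem_toFinset.2 hx, List.mem_toFinset.2 hy, hxy⟩)
  set δ := D i j with hδ
  have hδ0 : δ ≠ 0 := hD0 i hi j hj hij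
  set A := l.toFinset.filter (fun x => D x i ≤ δ) with hA
  have hAl : ∀ x ∈ A, x ∈ l := fun x hx => List.mem_toFinset.1 (Finset.mem_filter.1 hx).1
  have hAi : ∀ x ∈ A, D x i ≤ δ := fun x hx => (Finset.mem_filter.1 hx).2
  have hiA : i ∈ A := Finset.mem_filter.2 ⟨List.mem_toFinset.2 hi, by rw [hDs]; exact zero_le⟩
  have hjA : j ∈ A := Finset.mem_filter.2 ⟨List.mem_toFinset.2 hj, by rw [hD j i]⟩
  -- distances
  have hin : ∀ a ∈ A, ∀ b ∈ A, a ≠ b → D a b = δ := by
    intro a ha b hb hab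
    apply le_antisymm
    · refine (hDt a b i).trans (max_le (hAi a ha) ?_)
      rw [hD i b]
      exact hAi b hb
    · exact hmin' a (hAl a ha) b (hAl b hb) hab
  have hout : ∀ x ∈ l, x ∉ A → ∀ a ∈ A, δ < D x a := by
    intro x hx hxA a ha
    by_contra hcon
    push Not at hcon
    exact hxA (Finset.mem_filter.2 ⟨List.mem_toFinset.2 hx,
      (hDt x i a).trans (max_le hcon (hAi a ha))⟩)
  have hout2 : ∀ x ∈ l, x ∉ A → ∀ a ∈ A, ∀ b ∈ A, D x a ≤ D x b := by
    intro x hx hxA a ha b hb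
    rcases eq_or_ne a b with rfl | hab
    · exact le_rfl
    · refine (hDt x a b).trans (max_le le_rfl ?_)
      rw [hin b hb a ha hab.symm]
      exact (hout x hx hxA b hb).le
  have hout3 : ∀ x ∈ l, x ∉ A → ∀ a ∈ A, ∀ b ∈ A, D x a = D x b := fun x hx hxA a ha b hb =>
    le_antisymm (hout2 x hx hxA a ha b hb) (hout2 x hx hxA b hb a ha)
  -- (1)
  have h1 : ∀ (n : ℕ) (I I' : Finset ℕ), (I \ I').card = n → P I → P I' →
      (I ∩ A).card ≤ (I' ∩ A).card + 1 := by
    intro n
    induction n using Nat.strong_induction_on with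
    | _ n ih =>
      intro I I' hnI hI hI'
      by_contra hcon
      push Not at hcon
      -- elements of `I \ I'` lie in `A`
      have c1 : ∀ e ∈ I, e ∉ I' → e ∈ A := by
        intro e he he'
        by_contra heA
        obtain ⟨f, hf, hf', -, hf3⟩ := hex I I' hI hI' e he he'
        have h2 := card_sdiff_swap_right I I' e f he he' hf'
        have h3 := ih _ (by omega) I _ rfl hI hf3
        have h4 := card_swap I' A f e hf he'
        rw [if_neg heA] at h4
        omega
      have c2 : ∀ e ∈ I', e ∉ I → e ∉ A := by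
        intro e he he' heA
        obtain ⟨f, hf, hf', -, hf3⟩ := hex I' I hI' hI e he he'
        have h2 := card_sdiff_swap_left I I' e f he hf hf'
        have h3 := ih _ (by omega) _ I' rfl hf3 hI'
        have h4 := card_swap I A f e hf he'
        rw [if_pos heA] at h4
        split_ifs at h4 <;> omega
      have hIA : (I ∩ A).card = (I' ∩ A).card + (I \ I').card := by
        rw [← Finset.card_union_of_disjoint]
        · congr 1
          ext x
          simp only [mem_inter, mem_union, mem_sdiff]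
          constructor
          · rintro ⟨h2, h3⟩
            by_cases h4 : x ∈ I'
            · exact Or.inl ⟨h4, h3⟩
            · exact Or.inr ⟨h2, h4⟩
          · rintro (⟨h2, h3⟩ | ⟨h2, h3⟩)
            · refine ⟨?_, h3⟩
              by_contra h4
              exact c2 x h2 h4 h3
            · exact ⟨h2, c1 x h2 h3⟩
        · rw [Finset.disjoint_left]
          intro x hx hx'
          exact (Finset.mem_sdiff.1 hx').2 (Finset.mem_inter.1 hx).1
      have hn2 : (I \ I').card = 2 := by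
        obtain ⟨e, he⟩ : (I \ I').Nonempty := Finset.card_pos.1 (by omega)
        rw [Finset.mem_sdiff] at he
        obtain ⟨f, hf, hf', -, hf3⟩ := hex I I' hI hI' e he.1 he.2
        have h2 := card_sdiff_swap_right I I' e f he.1 he.2 hf'
        have h3 := ih _ (by omega) I _ rfl hI hf3
        have h4 := card_swap I' A f e hf he.2
        rw [if_pos (c1 e he.1 he.2), if_neg (c2 f hf hf')] at h4
        omega
      have hn2' : (I' \ I).card = 2 := by
        have h2 := Finset.card_sdiff_add_card_inter I I'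
        have h3 := Finset.card_sdiff_add_card_inter I' I
        rw [Finset.inter_comm I' I] at h3
        have h4 := hcard I hI
        have h5 := hcard I' hI'
        omega
      obtain ⟨a₁, a₂, ha, hIe⟩ := Finset.card_eq_two.1 hn2
      obtain ⟨b₁, b₂, hb, hIe'⟩ := Finset.card_eq_two.1 hn2'
      have ha1 : a₁ ∈ I ∧ a₁ ∉ I' := Finset.mem_sdiff.1 (by rw [hIe]; simp)
      have ha2 : a₂ ∈ I ∧ a₂ ∉ I' := Finset.mem_sdiff.1 (by rw [hIe]; simp)
      have hb1 : b₁ ∈ I' ∧ b₁ ∉ I := Finset.mem_sdiff.1 (by rw [hIe']; simp)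
      have hb2 : b₂ ∈ I' ∧ b₂ ∉ I := Finset.mem_sdiff.1 (by rw [hIe']; simp)
      set K := I ∩ I' with hK
      have hIK : I = insert a₁ (insert a₂ K) := by
        ext x
        have h2 : x ∈ I \ I' ↔ x = a₁ ∨ x = a₂ := by rw [hIe]; simp
        rw [Finset.mem_sdiff] at h2
        rw [hK, Finset.mem_insert, Finset.mem_insert, Finset.mem_inter, ← or_assoc, ← h2]
        tauto
      have hIK' : I' = insert b₁ (insert b₂ K) := by
        ext x
        have h2 : x ∈ I' \ I ↔ x = b₁ ∨ x = b₂ := by rw [hIe']; simp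
        rw [Finset.mem_sdiff] at h2
        rw [hK, Finset.mem_insert, Finset.mem_insert, Finset.mem_inter, ← or_assoc, ← h2]
        tauto
      have hKl : ∀ x ∈ K, x ∈ l := fun x hx => hsub I hI x (Finset.mem_inter.1 hx).1
      have a1K : a₁ ∉ K := fun h => ha1.2 (Finset.mem_inter.1 h).2
      have a2K : a₂ ∉ K := fun h => ha2.2 (Finset.mem_inter.1 h).2
      have b1K : b₁ ∉ K := fun h => hb1.2 (Finset.mem_inter.1 h).1
      have b2K : b₂ ∉ K := fun h => hb2.2 (Finset.mem_inter.1 h).1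
      have a1l := hsub I hI a₁ ha1.1
      have a2l := hsub I hI a₂ ha2.1
      have b1l := hsub I' hI' b₁ hb1.1
      have b2l := hsub I' hI' b₂ hb2.1
      have a1b1 : a₁ ≠ b₁ := fun h => hb1.2 (h ▸ ha1.1)
      have a2b2 : a₂ ≠ b₂ := fun h => hb2.2 (h ▸ ha2.1)
      have a1A := c1 a₁ ha1.1 ha1.2
      have a2A := c1 a₂ ha2.1 ha2.2
      have b1A := c2 b₁ hb1.1 hb1.2
      have b2A := c2 b₂ hb2.1 hb2.2
      have hKc : K.card + 2 = r := by
        have h2 := Finset.card_sdiff_add_card_inter I I'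
        have h4 := hcard I hI
        rw [← hK] at h2
        omega
      have hmemr : ∀ u v, u ∈ l → v ∈ l → u ∉ K → v ∉ K → u ≠ v →
          insert u (insert v K) ∈ l.toFinset.powersetCard r := by
        intro u v hu hv huK hvK huv
        rw [Finset.mem_powersetCard]
        constructor
        · intro x hx
          rw [List.mem_toFinset]
          rcases Finset.mem_insert.1 hx with rfl | hx
          · exact hu
          · rcases Finset.mem_insert.1 hx with rfl | hx
            · exact hv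
            · exact hKl x hx
        · rw [Finset.card_insert_of_notMem (by simp [huv, huK]), Finset.card_insert_of_notMem hvK]
          omega
      have e1 : FV l g D I = q₀ := (hiff I (hP I hI)).1 hI
      have e2 : FV l g D I' = q₀ := (hiff I' (hP I' hI')).1 hI'
      have e3 := hle _ (hmemr a₁ b₁ a1l b1l a1K b1K a1b1)
      have e4 := hle _ (hmemr a₂ b₂ a2l b2l a2K b2K a2b2)
      rw [hIK, FV_insert2 l hl g D hD _ _ K a1l a2l ha a1K a2K hKl] at e1
      rw [hIK', FV_insert2 l hl g D hD _ _ K b1l b2l hb b1K b2K hKl] at e2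
      rw [FV_insert2 l hl g D hD _ _ K a1l b1l a1b1 a1K b1K hKl] at e3
      rw [FV_insert2 l hl g D hD _ _ K a2l b2l a2b2 a2K b2K hKl] at e4
      set k := FV l g D K
      set x₁ := g a₁ * ∏ x ∈ K, D a₁ x
      set x₂ := g a₂ * ∏ x ∈ K, D a₂ x
      set y₁ := g b₁ * ∏ x ∈ K, D b₁ x
      set y₂ := g b₂ * ∏ x ∈ K, D b₂ x
      have e5 : q₀ * q₀ = (k * x₁ * x₂ * (k * y₁ * y₂)) * (D a₁ a₂ * D b₁ b₂) := by
        conv_lhs =>
          congr
          · rw [← e1]
          · rw [← e2]
        ac_rfl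
      have e6 : (k * x₁ * x₂ * (k * y₁ * y₂)) * (D a₁ b₁ * D a₂ b₂) ≤ q₀ * q₀ := by
        refine le_trans (le_of_eq ?_) (mul_le_mul' e3 e4)
        ac_rfl
      have e7 : 0 < k * x₁ * x₂ * (k * y₁ * y₂) := by
        rw [zero_lt_iff]
        intro h
        rw [h, zero_mul] at e5
        exact mul_ne_zero hq₀ hq₀ e5
      have p1 : δ < D a₁ b₁ := by
        rw [hD a₁ b₁]
        exact hout b₁ b1l b1A a₁ a1A
      have p2 : δ < D a₂ b₂ := by
        rw [hD a₂ b₂]
        exact hout b₂ b2l b2A a₂ a2A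
      have p3 : D b₁ b₂ ≤ D a₁ b₁ ∨ D b₁ b₂ ≤ D a₂ b₂ := by
        have h2 := hDt b₁ b₂ a₁
        rcases le_max_iff.1 h2 with h3 | h3
        · left
          rw [hD a₁ b₁]
          exact h3
        · right
          rw [hD a₂ b₂, hout3 b₂ b2l b2A a₂ a2A a₁ a1A, hD b₂ a₁]
          exact h3
      have e8 : D a₁ a₂ * D b₁ b₂ < D a₁ b₁ * D a₂ b₂ := by
        rw [hin a₁ a1A a₂ a2A ha]
        have q1 : 0 < D a₁ b₁ := lt_of_le_of_lt zero_le p1
        have q2 : 0 < D a₂ b₂ := lt_of_le_of_lt zero_le p2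
        rcases p3 with h3 | h3
        · calc δ * D b₁ b₂ ≤ δ * D a₁ b₁ := mul_le_mul' le_rfl h3
            _ = D a₁ b₁ * δ := mul_comm _ _
            _ < D a₁ b₁ * D a₂ b₂ := mul_lt_mul_of_pos_left p2 q1
        · calc δ * D b₁ b₂ ≤ δ * D a₂ b₂ := mul_le_mul' le_rfl h3
            _ < D a₁ b₁ * D a₂ b₂ := mul_lt_mul_of_pos_right p1 q2
      have e9 := mul_lt_mul_of_pos_left e8 e7
      rw [← e5] at e9
      exact absurd (lt_of_lt_of_le e9 e6) (lt_irrefl _)
  have h1' : ∀ I I', P I → P I' → (I ∩ A).card ≤ (I' ∩ A).card + 1 := fun I I' hI hI' =>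
    h1 _ I I' rfl hI hI'
  -- (2)
  have hmem : ∀ I, P I → ∀ a ∈ I, ∀ b ∈ l, b ∉ I →
      insert b (I.erase a) ∈ l.toFinset.powersetCard r := by
    intro I hI a ha b hb hbI
    rw [Finset.mem_powersetCard]
    constructor
    · intro x hx
      rw [List.mem_toFinset]
      rcases Finset.mem_insert.1 hx with rfl | hx
      · exact hb
      · exact hsub I hI x (Finset.mem_of_mem_erase hx)
    · rw [card_swap_eq I a b ha hbI, hcard I hI]
  have h2 : ∀ I, P I → ∀ a ∈ A, a ∈ I → ∀ b ∈ A, b ∉ I →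
      FV l g D (insert b (I.erase a)) * g a = q₀ * g b := by
    intro I hI a ha haI b hb hbI
    have hK : ∀ x ∈ I.erase a, x ∈ l := fun x hx => hsub I hI x (Finset.mem_of_mem_erase hx)
    have e1 : FV l g D I = FV l g D (I.erase a) * (g a * ∏ x ∈ I.erase a, D a x) := by
      rw [← FV_insert l hl g D hD a _ (hAl a ha) (Finset.notMem_erase a I) hK,
        Finset.insert_erase haI]
    have e2 := FV_insert l hl g D hD b (I.erase a) (hAl b hb) (fun h => hbI
      (Finset.mem_of_mem_erase h)) hK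
    have e3 : ∏ x ∈ I.erase a, D b x = ∏ x ∈ I.erase a, D a x := by
      apply Finset.prod_congr rfl
      intro x hx
      have hxa : x ≠ a := Finset.ne_of_mem_erase hx
      have hxb : x ≠ b := fun h => hbI (h ▸ Finset.mem_of_mem_erase hx)
      by_cases hxA : x ∈ A
      · rw [hin b hb x hxA hxb.symm, hin a ha x hxA hxa.symm]
      · rw [hD b x, hD a x]
        exact hout3 x (hK x hx) hxA b hb a ha
    rw [e2, e3, ← (hiff I (hP I hI)).1 hI, e1]
    ac_rfl
  have h3 : ∀ I, P I → ∀ a ∈ A, a ∈ I → ∀ b ∈ A, b ∉ I → g b ≤ g a := by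
    intro I hI a ha haI b hb hbI
    have e1 := h2 I hI a ha haI b hb hbI
    have e2 := hle _ (hmem I hI a haI b (hAl b hb) hbI)
    have e3 : q₀ * g b ≤ q₀ * g a := by
      rw [← e1]
      exact mul_le_mul' e2 le_rfl
    exact le_of_mul_le_mul_left e3 (zero_lt_iff.2 hq₀)
  have h4 : ∀ a ∈ A, ∀ b ∈ A, g a = g b := by
    have h5 : ∀ a ∈ A, ∀ b ∈ A, ¬ g b < g a := by
      intro a ha b hb hlt
      obtain ⟨a₀, ha₀, hmax⟩ := Finset.exists_max_image A g ⟨a, ha⟩
      obtain ⟨b₀, hb₀, hmi⟩ := Finset.exists_min_image A g ⟨a, ha⟩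
      have hlt' : g b₀ < g a₀ := (hmi b hb).trans_lt (hlt.trans_le (hmax a ha))
      obtain ⟨I, hI, hbI⟩ := (halive b₀ (hAl b₀ hb₀)).1
      obtain ⟨I', hI', haI'⟩ := (halive a₀ (hAl a₀ ha₀)).2
      set M := A.filter (fun x => g x = g a₀) with hM
      have c1 : (I ∩ A).card ≥ M.card + 1 := by
        have c2 : insert b₀ M ⊆ I ∩ A := by
          intro x hx
          rcases Finset.mem_insert.1 hx with rfl | hx
          · exact Finset.mem_inter.2 ⟨hbI, hb₀⟩
          · obtain ⟨hx1, hx2⟩ := Finset.mem_filter.1 hx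
            refine Finset.mem_inter.2 ⟨?_, hx1⟩
            by_contra hxI
            have := h3 I hI b₀ hb₀ hbI x hx1 hxI
            rw [hx2] at this
            exact absurd hlt' (not_lt.2 this)
        have c3 := Finset.card_le_card c2
        rw [Finset.card_insert_of_notMem] at c3
        · exact c3
        · intro h
          have := (Finset.mem_filter.1 h).2
          rw [this] at hlt'
          exact lt_irrefl _ hlt'
      have c2 : (I' ∩ A).card + 1 ≤ M.card := by
        have c3 : I' ∩ A ⊆ M.erase a₀ := by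
          intro x hx
          obtain ⟨hx1, hx2⟩ := Finset.mem_inter.1 hx
          refine Finset.mem_erase.2 ⟨fun h => haI' (h ▸ hx1), Finset.mem_filter.2 ⟨hx2, ?_⟩⟩
          exact le_antisymm (hmax x hx2) (h3 I' hI' x hx2 hx1 a₀ ha₀ haI')
        have c4 := Finset.card_le_card c3
        have c5 : a₀ ∈ M := Finset.mem_filter.2 ⟨ha₀, rfl⟩
        rw [Finset.card_erase_of_mem c5] at c4
        have c6 : 0 < M.card := Finset.card_pos.2 ⟨a₀, c5⟩
        omega
      have := h1' I I' hI hI'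
      omega
    intro a ha b hb
    exact le_antisymm (not_lt.1 (h5 a ha b hb)) (not_lt.1 (h5 b hb a ha))
  have h5 : ∀ I, P I → ∀ a ∈ A, a ∈ I → ∀ b ∈ A, b ∉ I → P (insert b (I.erase a)) := by
    intro I hI a ha haI b hb hbI
    rw [hiff _ (hmem I hI a haI b (hAl b hb) hbI)]
    have e1 := h2 I hI a ha haI b hb hbI
    rw [h4 b hb a ha] at e1
    exact mul_right_cancel₀ (hg a (hAl a ha)) e1
  have hAsub : A ⊆ l.toFinset := Finset.filter_subset _ _
  refine ⟨A, hAsub, ?_, ?_, h1', h5⟩
  · exact Finset.one_lt_card.2 ⟨i, hiA, j, hjA, hij⟩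
  · by_contra hcon
    push Not at hcon
    have hB : (l.toFinset \ A).card ≤ 1 := by
      rw [Finset.card_sdiff_of_subset hAsub, hcardl]
      omega
    obtain ⟨J, hJ, hJn⟩ := hnot
    obtain ⟨hJ1, hJ2⟩ := Finset.mem_powersetCard.1 hJ
    have hsubB : ∀ I : Finset ℕ, I ⊆ l.toFinset → I \ A ⊆ l.toFinset \ A := fun I hI =>
      Finset.sdiff_subset_sdiff hI (Finset.Subset.refl _)
    have hkey : ∃ I, P I ∧ I \ A = J \ A := by
      by_cases hJA : J \ A = ∅
      · -- no element outside
        by_cases hBe : l.toFinset \ A = ∅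
        · obtain ⟨I, hI, -⟩ := (halive i hi).1
          refine ⟨I, hI, ?_⟩
          rw [hJA, ← Finset.subset_empty, ← hBe]
          exact hsubB I (Finset.mem_powersetCard.1 (hP I hI)).1
        · obtain ⟨x, hx⟩ := Finset.nonempty_iff_ne_empty.2 hBe
          obtain ⟨I, hI, hxI⟩ := (halive x (List.mem_toFinset.1 (Finset.mem_sdiff.1 hx).1)).2
          refine ⟨I, hI, ?_⟩
          rw [hJA, ← Finset.subset_empty]
          intro y hy
          have hy' := hsubB I (Finset.mem_powersetCard.1 (hP I hI)).1 hy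
          have hxy := Finset.card_le_one.1 hB y hy' x hx
          rw [hxy] at hy
          exact absurd (Finset.mem_sdiff.1 hy).1 hxI
      · obtain ⟨x, hx⟩ := Finset.nonempty_iff_ne_empty.2 hJA
        have hx' := hsubB J hJ1 hx
        obtain ⟨I, hI, hxI⟩ := (halive x (List.mem_toFinset.1 (Finset.mem_sdiff.1 hx').1)).1
        refine ⟨I, hI, ?_⟩
        ext y
        constructor
        · intro hy
          have hy' := hsubB I (Finset.mem_powersetCard.1 (hP I hI)).1 hy
          rw [Finset.card_le_one.1 hB y hy' x hx']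
          exact hx
        · intro hy
          have hy' := hsubB J hJ1 hy
          rw [Finset.card_le_one.1 hB y hy' x hx']
          exact Finset.mem_sdiff.2 ⟨hxI, (Finset.mem_sdiff.1 hx').2⟩
    obtain ⟨I, hI, hIJ⟩ := hkey
    exact hJn (sym_set P A h5 _ I J rfl hI hIJ (by rw [hcard I hI, hJ2]))

end

theorem vclu (hVal : ValStmt) (hPlu : PluckerStmt) : ClusterStmt := by
  intro l r hl hr hn z hz halive hnot
  obtain ⟨hP1, hP2, -⟩ := hPlu
  have hz0 : z ≠ 0 := by
    obtain ⟨x, hx⟩ : ∃ x, x ∈ l := by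
      cases l with
      | nil => simp at hn
      | cons a l => exact ⟨a, List.mem_cons_self⟩
    obtain ⟨⟨I, hI, -⟩, -⟩ := halive x hx
    rintro rfl
    exact hI rfl
  obtain ⟨K, _, _, v, c, t, I₀, hc, ht, hI₀, hC, hv⟩ := hVal l r z hz hz0
  set w := v.valuation with hw
  have hmem₀ := hP1 l r z hz I₀ hI₀
  have hwC : ∀ a : ℂ, a ≠ 0 → w (algebraMap ℂ K a) = 1 := by
    intro a ha
    have h1 : w (algebraMap ℂ K a) ≤ 1 := (v.valuation_le_one_iff _).2 (hC a)
    have h2 : w (algebraMap ℂ K a⁻¹) ≤ 1 := (v.valuation_le_one_iff _).2 (hC a⁻¹)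
    have h3 : w (algebraMap ℂ K a) * w (algebraMap ℂ K a⁻¹) = 1 := by
      rw [← map_mul, ← map_mul, mul_inv_cancel₀ ha, map_one, map_one]
    apply le_antisymm h1
    rw [← h3]
    exact mul_le_of_le_one_right' h2
  have hQ : ∀ I ∈ l.toFinset.powersetCard r, w (Q l r 1 c t I) =
      FV l (fun i => w (c i)) (fun x y => w (t x - t y)) I := by
    intro I hI
    rw [Q, if_pos hI, one_mul, map_mul, map_prod, map_prod]
    rfl
  have hQ0 : Q l r 1 c t I₀ ≠ 0 := by
    rw [Q, if_pos hmem₀, one_mul]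
    apply mul_ne_zero
    · exact Finset.prod_ne_zero_iff.2 fun i _ => hc i
    · apply Finset.prod_ne_zero_iff.2
      intro p hp
      obtain ⟨h1, h2, h3, -, -⟩ := mem_prsAll.1 hp
      rw [sub_ne_zero]
      apply ht _ (getD_mem h2) _ (getD_mem h1)
      intro h
      have := congrArg (fun x => l.idxOf x) h
      simp only [pos_getD hl h1, pos_getD hl h2] at this
      omega
  have hquo : ∀ I, w (Q l r 1 c t I) = w (Q l r 1 c t I / Q l r 1 c t I₀) * w (Q l r 1 c t I₀) := by
    intro I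
    rw [← map_mul, div_mul_cancel₀ _ hQ0]
  have hnz : ∀ I, z I ≠ 0 → w (Q l r 1 c t I / Q l r 1 c t I₀) = 1 := by
    intro I hI
    have h1 := hv I
    have h2 : w (algebraMap ℂ K (((z I / z I₀ : ℝ) : ℂ))) = 1 := by
      apply hwC
      exact_mod_cast div_ne_zero hI hI₀
    rw [← h2] at h1 ⊢
    have h3 := Valuation.map_add_eq_of_lt_left w h1
    rw [add_sub_cancel] at h3
    exact h3
  have hzr : ∀ I, z I = 0 → w (Q l r 1 c t I / Q l r 1 c t I₀) < 1 := by
    intro I hI
    have h1 := hv I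
    rw [hI, zero_div, Complex.ofReal_zero, map_zero, sub_zero] at h1
    exact h1
  have hq₀ : w (Q l r 1 c t I₀) ≠ 0 := (Valuation.ne_zero_iff w).2 hQ0
  refine cluster_abs l hl r hr hn (fun I => z I ≠ 0) (fun I hI => hP1 l r z hz I hI)
    (fun I I' hI hI' e he he' => hP2 l r hl z hz I I' hI hI' e he he')
    (fun i => w (c i)) (fun x y => w (t x - t y)) (fun i _ => (Valuation.ne_zero_iff w).2 (hc i))
    (fun x y => Valuation.map_sub_swap w _ _) ?_ ?_ ?_ (w (Q l r 1 c t I₀)) hq₀ ?_ ?_ ?_ ?_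
  · intro x y u
    have h1 : t x - t y = (t x - t u) + (t u - t y) := by ring
    show w (t x - t y) ≤ _
    rw [h1]
    exact w.map_add _ _
  · intro x hx y hy hxy
    exact (Valuation.ne_zero_iff w).2 (sub_ne_zero.2 (ht x hx y hy hxy))
  · intro x
    show w (t x - t x) = 0
    rw [sub_self, map_zero]
  · intro I hI
    rw [← hQ I hI, hquo I]
    have h1 : w (Q l r 1 c t I / Q l r 1 c t I₀) ≤ 1 := by
      by_cases h : z I = 0
      · exact (hzr I h).le
      · exact (hnz I h).le
    exact mul_le_of_le_one_left' h1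
  · intro I hI
    rw [← hQ I hI]
    constructor
    · intro h
      rw [hquo I, hnz I h, one_mul]
    · intro h h0
      have h1 := hzr I h0
      rw [hquo I] at h
      have h2 := mul_right_cancel₀ hq₀ (h.trans (one_mul _).symm)
      rw [h2] at h1
      exact lt_irrefl _ h1
  · intro i hi
    exact halive i hi
  · obtain ⟨I, hI, hI0⟩ := hnot
    exact ⟨I, hI, fun h => h hI0⟩

end ABCT.H7
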