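import Pool.Agent.Helper7_ABCT.Twc

/-!
# Module EHOM of the squad ABCT: homogeneity of the coefficients
-/

set_option autoImplicit false

namespace ABCT.H7

open MvPolynomial FlatCell

theorem valid_hole : ∀ (C : Ctx) (N : Net), (C.app N).Valid → N.Valid
  | Ctx.hole, _, h => h
  | Ctx.dsumL C _, N, h => valid_hole C N h.1
  | Ctx.dsumR _ C, N, h => valid_hole C N h.2.1
  | Ctx.tsumL C _ _, N, h => valid_hole C N h.1
  | Ctx.tsumR _ C _, N, h => valid_hole C N h.2.1

/-! ### the map `Ht` -/

section Ht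
variable (C : Ctx) (l : List ℕ) (r : ℕ)

theorem Ht_C (a : ℂ) : Ht C l r (MvPolynomial.C a) = MvPolynomial.C (algebraMap ℂ (Fr C.R) a) := by
  rw [Ht, aeval_C]
  rfl

theorem Ht_add (p q : MvPolynomial (C.app (Net.gen l r)).G ℂ) :
    Ht C l r (p + q) = Ht C l r p + Ht C l r q := map_add _ _ _

theorem Ht_mul (p q : MvPolynomial (C.app (Net.gen l r)).G ℂ) :
    Ht C l r (p * q) = Ht C l r p * Ht C l r q := map_mul _ _ _

theorem Ht_gi (k : Fin (l.length - 2)) :
    Ht C l r (X (C.gi (Net.gen l r) k)) = X (k.1 + 1) - X k.1 := by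
  rw [Ht, aeval_X]
  unfold Ctx.gi
  rw [Equiv.apply_symm_apply]

theorem Ht_go (h : C.R) : Ht C l r (X (C.go (Net.gen l r) h)) = MvPolynomial.C (xx h) := by
  rw [Ht, aeval_X]
  unfold Ctx.go
  rw [Equiv.apply_symm_apply]

/-- back to the gap variables -/
noncomputable def eta : MvPolynomial ℕ (Fr C.R) →ₐ[Fr C.R] MvPolynomial (Fin (l.length - 2)) (Fr C.R) :=
  aeval (fun j => ∑ h ∈ Finset.univ.filter (fun h : Fin (l.length - 2) => h.1 < j), X h)

theorem eta_diff (k : Fin (l.length - 2)) : eta C l (X (k.1 + 1) - X k.1) = X k := by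
  rw [eta, map_sub, aeval_X, aeval_X]
  have h1 : (Finset.univ : Finset (Fin (l.length - 2))).filter (fun h => h.1 < k.1 + 1) =
      insert k ((Finset.univ : Finset (Fin (l.length - 2))).filter (fun h => h.1 < k.1)) := by
    ext h
    simp only [Finset.mem_filter, Finset.mem_univ, true_and, Finset.mem_insert, Fin.ext_iff]
    omega
  rw [h1, Finset.sum_insert (by simp)]
  ring

theorem eta_Ht (H : MvPolynomial (C.app (Net.gen l r)).G ℂ) : eta C l (Ht C l r H) =
    MvPolynomial.map (algebraMap (MvPolynomial C.R ℂ) (Fr C.R))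
      (sumAlgEquiv ℂ (Fin (l.length - 2)) C.R (rename (C.ge (Net.gen l r)) H)) := by
  induction H using MvPolynomial.induction_on with
  | C a =>
    rw [Ht_C, rename_C, sumAlgEquiv_C_inl, map_C, ← MvPolynomial.algebraMap_eq,
      AlgHom.commutes, MvPolynomial.algebraMap_eq]
    congr 1
  | add p q hp hq => rw [Ht_add, map_add, hp, hq, map_add, map_add, map_add]
  | mul_X p g hp =>
    rw [Ht_mul, map_mul, hp, map_mul, map_mul, map_mul, rename_X]
    congr 1
    rcases gap_cases C _ g with ⟨k, rfl⟩ | ⟨h, rfl⟩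
    · rw [Ht_gi, eta_diff]
      unfold Ctx.gi
      rw [Equiv.apply_symm_apply]
      erw [sumAlgEquiv_X_inl]
      rw [map_X]
    · rw [Ht_go]
      unfold Ctx.go
      rw [Equiv.apply_symm_apply, sumAlgEquiv_X_inr, map_C, ← MvPolynomial.algebraMap_eq,
        AlgHom.commutes, MvPolynomial.algebraMap_eq]
      rfl

theorem Ht_ne_zero (H : MvPolynomial (C.app (Net.gen l r)).G ℂ) (hH : H ≠ 0) :
    Ht C l r H ≠ 0 := by
  intro h
  have h1 := eta_Ht C l r H
  rw [h, map_zero] at h1
  apply hH
  have h2 := MvPolynomial.map_injective (σ := Fin (l.length - 2))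
    (algebraMap (MvPolynomial C.R ℂ) (Fr C.R)) (IsFractionRing.injective _ _)
  have h3 := h2 (h1.symm.trans (map_zero _).symm)
  have h4 := (sumAlgEquiv ℂ (Fin (l.length - 2)) C.R).injective (h3.trans (map_zero _).symm)
  exact rename_injective _ (C.ge (Net.gen l r)).injective (h4.trans (map_zero _).symm)

theorem Ht_degreeOf (j : ℕ) (hj : l.length ≤ j + 1) (H : MvPolynomial (C.app (Net.gen l r)).G ℂ) :
    degreeOf j (Ht C l r H) = 0 := by
  induction H using MvPolynomial.induction_on with
  | C a => rw [Ht_C, degreeOf_C]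
  | add p q hp hq =>
    rw [Ht_add]
    have := degreeOf_add_le j (Ht C l r p) (Ht C l r q)
    rw [hp, hq] at this
    simpa using this
  | mul_X p g hp =>
    rw [Ht_mul]
    have h1 := degreeOf_mul_le j (Ht C l r p) (Ht C l r (X g))
    have h2 : degreeOf j (Ht C l r (X g)) = 0 := by
      rcases gap_cases C _ g with ⟨k, rfl⟩ | ⟨h, rfl⟩
      · rw [Ht_gi]
        have hk := k.2
        have h3 := degreeOf_add_le j (X (k.1 + 1) : MvPolynomial ℕ (Fr C.R)) (-X k.1)
        have h4 : degreeOf j (-X k.1 : MvPolynomial ℕ (Fr C.R)) = 0 := by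
          rw [degreeOf_neg, degreeOf_X_of_ne (by omega)]
        rw [degreeOf_X_of_ne (by omega), h4, ← sub_eq_add_neg] at h3
        simpa using h3
      · rw [Ht_go, degreeOf_C]
    omega

/-- inner weight `b₀`, outer weight `0` -/
def bw (b₀ : ℕ) (g : (C.app (Net.gen l r)).G) : ℕ :=
  Sum.elim (fun _ => b₀) (fun _ => 0) (C.ge (Net.gen l r) g)

theorem bw_gi (b₀ : ℕ) (k : (Net.gen l r).G) : bw C l r b₀ (C.gi (Net.gen l r) k) = b₀ := by
  unfold bw Ctx.gi
  rw [Equiv.apply_symm_apply]
  rfl

theorem bw_go (b₀ : ℕ) (h : C.R) : bw C l r b₀ (C.go (Net.gen l r) h) = 0 := by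
  unfold bw Ctx.go
  rw [Equiv.apply_symm_apply]
  rfl

theorem Ht_homog (H : MvPolynomial (C.app (Net.gen l r)).G ℂ) (d : ℕ)
    (hd : ∀ β ∈ H.support, (β.sum fun g n => bw C l r 1 g * n) = d) :
    (Ht C l r H).IsHomogeneous d := by
  conv_lhs => rw [H.as_sum]
  have h1 : Ht C l r (∑ β ∈ H.support, monomial β (coeff β H)) =
      ∑ β ∈ H.support, Ht C l r (monomial β (coeff β H)) := map_sum _ _ _
  rw [h1]
  apply IsHomogeneous.sum
  intro β hβ
  rw [← hd β hβ, monomial_eq, Ht_mul, Ht_C]
  have h2 : Ht C l r (β.prod fun g n => X g ^ n) = β.prod fun g n => (Ht C l r (X g)) ^ n := by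
    have h3 : Ht C l r (β.prod fun g n => X g ^ n) =
        ∏ g ∈ β.support, Ht C l r (X g ^ β g) := map_prod _ _ _
    rw [h3]
    exact Finset.prod_congr rfl fun g _ => map_pow _ _ _
  rw [h2, ← zero_add (β.sum _)]
  apply IsHomogeneous.mul (isHomogeneous_C _ _)
  apply IsHomogeneous.prod
  intro g _
  apply IsHomogeneous.pow
  rcases gap_cases C _ g with ⟨k, rfl⟩ | ⟨h, rfl⟩
  · rw [Ht_gi, bw_gi]
    exact (isHomogeneous_X _ _).sub (isHomogeneous_X _ _)
  · rw [Ht_go, bw_go]
    exact isHomogeneous_C _ _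

end Ht

/-! ### weights -/

theorem rename_wh {σ τ R : Type*} [CommSemiring R] (f : σ → τ) (w : τ → ℕ) (φ : MvPolynomial σ R)
    (d : ℕ) (h : IsWeightedHomogeneous (fun s => w (f s)) φ d) :
    IsWeightedHomogeneous w (rename f φ) d := by
  intro m hm
  obtain ⟨u, rfl, hu⟩ := coeff_rename_ne_zero f φ m hm
  rw [← h hu, Finsupp.weight_apply, Finsupp.weight_apply, Finsupp.sum_mapDomain_index]
  · intro t
    simp
  · intro t a b
    rw [add_smul]

theorem wh_zero {σ R : Type*} [CommSemiring R] (φ : MvPolynomial σ R) :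
    IsWeightedHomogeneous (fun _ => 0) φ (0 : ℕ) := by
  intro m _
  rw [Finsupp.weight_apply]
  simp

theorem wh_of_homog {σ R : Type*} [CommSemiring R] (φ : MvPolynomial σ R) (d b₀ : ℕ)
    (h : φ.IsHomogeneous d) : IsWeightedHomogeneous (fun _ => b₀) φ (b₀ * d) := by
  intro m hm
  have h1 := h hm
  rw [Finsupp.weight_apply] at h1 ⊢
  rw [← h1, Finsupp.sum, Finsupp.sum, Finset.mul_sum]
  apply Finset.sum_congr rfl
  intro s _
  simp [mul_comm]

theorem D_hom (n a b : ℕ) : (Net.D n a b).IsHomogeneous 1 := by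
  unfold Net.D
  exact IsHomogeneous.sum _ _ _ fun h _ => isHomogeneous_X _ _

theorem gen_Delta_hom (l : List ℕ) (r : ℕ) (J : Finset ℕ) :
    ((Net.gen l r).Δ J).IsHomogeneous (Net.prs l J).card := by
  by_cases hJ : J ∈ (Net.gen l r).M
  · have h2 : (Net.gen l r).Δ J = ∏ p ∈ Net.prs l J, Net.D (l.length - 2) p.1 p.2 := if_pos hJ
    rw [h2, Finset.card_eq_sum_ones]
    exact IsHomogeneous.prod _ _ _ fun p _ => D_hom _ _ _
  · have h2 : (Net.gen l r).Δ J = 0 := if_neg hJ
    rw [h2]
    exact isHomogeneous_zero _ _ _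

theorem pol_weight (C : Ctx) (l : List ℕ) (r : ℕ) (J : Finset ℕ → Finset ℕ)
    (Rp : Finset ℕ → MvPolynomial C.R ℕ) (k : ℕ → ℕ) (hCJ : CtxJ C (Net.gen l r) J Rp k)
    (a : ℕ → ℕ) (b₀ : ℕ) (I : Finset ℕ) (hI : I ∈ (C.app (Net.gen l r)).M)
    (μ : (C.app (Net.gen l r)).flat.V →₀ ℕ) (hμ : μ ∈ ((C.app (Net.gen l r)).flat.pol I).support) :
    (μ.sum fun v n => (Sum.elim a (bw C l r b₀) v) * n) =
      ∑ i ∈ I, a i + b₀ * (Net.prs l (J I)).card := by
  obtain ⟨-, -, h3, -⟩ := hCJ I hI
  have h4 : IsWeightedHomogeneous (Sum.elim a (bw C l r b₀))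
      ((C.app (Net.gen l r)).flat.pol I) (∑ i ∈ I, a i + b₀ * (Net.prs l (J I)).card) := by
    unfold FlatCell.pol
    apply IsWeightedHomogeneous.mul
    · apply IsWeightedHomogeneous.prod
      intro i _
      exact isWeightedHomogeneous_X _ _ _
    · apply rename_wh
      have h5 : (C.app (Net.gen l r)).flat.Δ I = (C.app (Net.gen l r)).Δ I := rfl
      rw [h5, h3, ← add_zero (b₀ * _)]
      apply IsWeightedHomogeneous.mul
      · apply rename_wh
        have h6 : (fun s : (Net.gen l r).G => (Sum.elim a (bw C l r b₀)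
            (Sum.inr (C.gi (Net.gen l r) s) : ℕ ⊕ (C.app (Net.gen l r)).G) : ℕ)) = fun _ => b₀ := by
          funext s
          exact bw_gi C l r b₀ s
        rw [h6]
        exact wh_of_homog _ _ _ (gen_Delta_hom l r (J I))
      · apply rename_wh
        have h6 : (fun s : C.R => (Sum.elim a (bw C l r b₀)
            (Sum.inr (C.go (Net.gen l r) s) : ℕ ⊕ (C.app (Net.gen l r)).G) : ℕ)) = fun _ => 0 := by
          funext s
          exact bw_go C l r b₀ s
        rw [h6]
        exact wh_zero _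
  have h5 := h4 (mem_support_iff.1 hμ)
  rw [← h5, Finsupp.weight_apply]
  apply Finset.sum_congr rfl
  intro v _
  show Sum.elim a (bw C l r b₀) v * μ v = μ v * Sum.elim a (bw C l r b₀) v
  exact mul_comm _ _

/-! ### counting pairs -/

theorem card_prs (m : List ℕ) (hm : m.Nodup) (J : Finset ℕ) :
    (Net.prs m J).card = (op m J).card := by
  have h1 := prs_prod (R := Multiplicative ℕ) m hm J (fun _ _ => Multiplicative.ofAdd 1)
  rw [Finset.prod_const, Finset.prod_const] at h1
  have h2 := congrArg Multiplicative.toAdd h1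
  simpa using h2

theorem card_op (m : List ℕ) (J : Finset ℕ) : (op m J).card =
    ((J.filter fun x => m.idxOf x < m.length - 1).card).choose 2 := by
  set J' := J.filter fun x => m.idxOf x < m.length - 1 with hJ'
  have hinj : ∀ x ∈ J', ∀ y ∈ J', m.idxOf x = m.idxOf y → x = y := by
    intro x hx y hy h
    have hx' := (Finset.mem_filter.1 hx).2
    have hy' := (Finset.mem_filter.1 hy).2
    have h7 := congrArg (fun q => m.getD q 0) h
    simp only [getD_pos (mem_of_pos (show m.idxOf x < m.length by omega)),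
      getD_pos (mem_of_pos (show m.idxOf y < m.length by omega))] at h7
    exact h7
  have h1 : J'.offDiag = op m J ∪ (op m J).image Prod.swap := by
    ext ⟨x, y⟩
    simp only [Finset.mem_offDiag, Finset.mem_union, Finset.mem_image, mem_op, Prod.exists,
      Prod.swap_prod_mk, Prod.mk.injEq]
    constructor
    · rintro ⟨hx, hy, hxy⟩
      obtain ⟨hx1, hx2⟩ := Finset.mem_filter.1 hx
      obtain ⟨hy1, hy2⟩ := Finset.mem_filter.1 hy
      rcases Nat.lt_trichotomy (m.idxOf x) (m.idxOf y) with h | h | h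
      · exact Or.inl ⟨hx1, hy1, h, hy2⟩
      · exact absurd (hinj x hx y hy h) hxy
      · exact Or.inr ⟨y, x, ⟨hy1, hx1, h, hx2⟩, rfl, rfl⟩
    · rintro (⟨h2, h3, h4, h5⟩ | ⟨a, b, ⟨h2, h3, h4, h5⟩, rfl, rfl⟩)
      · refine ⟨Finset.mem_filter.2 ⟨h2, by omega⟩, Finset.mem_filter.2 ⟨h3, h5⟩, ?_⟩
        rintro rfl
        exact lt_irrefl _ h4
      · refine ⟨Finset.mem_filter.2 ⟨h3, h5⟩, Finset.mem_filter.2 ⟨h2, by omega⟩, ?_⟩
        rintro rfl
        exact lt_irrefl _ h4
  have h2 : Disjoint (op m J) ((op m J).image Prod.swap) := by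
    rw [Finset.disjoint_left]
    rintro ⟨x, y⟩ hp hq
    obtain ⟨⟨a, b⟩, hq1, hq2⟩ := Finset.mem_image.1 hq
    simp only [Prod.swap_prod_mk, Prod.mk.injEq] at hq2
    obtain ⟨rfl, rfl⟩ := hq2
    have h3 := (mem_op.1 hp).2.2.1
    have h4 := (mem_op.1 hq1).2.2.1
    simp only at h3 h4
    omega
  have h3 := congrArg Finset.card h1
  rw [Finset.card_union_of_disjoint h2, Finset.card_image_of_injective _ Prod.swap_injective,
    Finset.offDiag_card] at h3
  rw [Nat.choose_two_right, Nat.mul_sub, mul_one]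
  omega

theorem count_pos (l : List ℕ) (hl : l.Nodup) (J : Finset ℕ) (hJ : J ⊆ l.toFinset) :
    ∑ a ∈ Finset.range l.length, (if l.getD a 0 ∈ J then 1 else 0) = J.card := by
  rw [← Finset.card_filter]
  refine Finset.card_bij' (fun a _ => l.getD a 0) (fun x _ => l.idxOf x) ?_ ?_ ?_ ?_
  · intro a ha
    exact (Finset.mem_filter.1 ha).2
  · intro x hx
    have hxl : x ∈ l := List.mem_toFinset.1 (hJ hx)
    rw [Finset.mem_filter, Finset.mem_range, getD_pos hxl]
    exact ⟨pos_lt hxl, hx⟩
  · intro a ha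
    exact pos_getD hl (Finset.mem_range.1 (Finset.mem_filter.1 ha).1)
  · intro x hx
    exact getD_pos (List.mem_toFinset.1 (hJ hx))

theorem ehom (hE : EexpStmt) : EhomStmt := by
  intro C l r n N v J Rp k hval hCJ hN hcf
  obtain ⟨hl, hr1, hr2⟩ := valid_hole C _ hval
  obtain ⟨-, -, hE3, -⟩ := hE
  set M := (C.app (Net.gen l r)).M with hM
  set H := cf (C.app (Net.gen l r)).flat N v with hH
  refine ⟨Ht_ne_zero C l r H hcf, fun j hj => Ht_degreeOf C l r j hj H, ?_⟩
  obtain ⟨β₀, hβ₀⟩ : H.support.Nonempty := MvPolynomial.support_nonempty.2 hcf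
  have hsupp : ∀ I, ∀ μ ∈ ((C.app (Net.gen l r)).flat.pol I).support, I ∈ M := by
    intro I μ hμ
    by_contra hI
    have h1 : (C.app (Net.gen l r)).flat.Δ I = 0 := by
      by_contra h
      exact hI (((wfStmt _ hval).1.ne I).1 h)
    have h2 : (C.app (Net.gen l r)).flat.pol I = 0 := by
      unfold FlatCell.pol
      rw [h1, map_zero, mul_zero]
    rw [h2] at hμ
    simp at hμ
  set ρ := l.getD (l.length - 1) 0 with hρ
  have hρl : ρ ∈ l := getD_mem (by omega)
  have hposρ : l.idxOf ρ = l.length - 1 := pos_getD hl (by omega)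
  have hJM : ∀ I ∈ M, J I ⊆ l.toFinset ∧ (J I).card = r := fun I hI =>
    Finset.mem_powersetCard.1 (hCJ I hI).1
  -- the number of labels in a block
  set f : Finset ℕ → ℕ → ℕ := fun I a => (I ∩ C.blk (l.getD a 0)).card with hf
  have hfk : ∀ I ∈ M, ∀ a < l.length, f I a = k (l.getD a 0) +
      (if l.getD a 0 ∈ J I then 1 else 0) := fun I hI a ha =>
    (hCJ I hI).2.2.2 _ (List.mem_toFinset.2 (getD_mem ha))
  have hκ₂ : ∀ I ∈ M, ∑ a ∈ Finset.range l.length, f I a =
      ∑ a ∈ Finset.range l.length, k (l.getD a 0) + r := by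
    intro I hI
    rw [Finset.sum_congr rfl (fun a ha => hfk I hI a (Finset.mem_range.1 ha)),
      Finset.sum_add_distrib, count_pos l hl (J I) (hJM I hI).1, (hJM I hI).2]
  have hκ₁ : ∀ I ∈ M, (r - 1) * f I (l.length - 1) + (Net.prs l (J I)).card =
      r.choose 2 + (r - 1) * k ρ := by
    intro I hI
    rw [card_prs l hl, card_op, hfk I hI _ (by omega), ← hρ]
    have h1 : ((J I).filter fun x => l.idxOf x < l.length - 1) = (J I).erase ρ := by
      ext x
      rw [Finset.mem_filter, Finset.mem_erase]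
      constructor
      · rintro ⟨h2, h3⟩
        refine ⟨?_, h2⟩
        rintro rfl
        omega
      · rintro ⟨h2, h3⟩
        refine ⟨h3, ?_⟩
        have hxl : x ∈ l := List.mem_toFinset.1 ((hJM I hI).1 h3)
        have h4 := pos_lt hxl
        by_contra h5
        apply h2
        have h6 : l.idxOf x = l.idxOf ρ := by omega
        have h7 := congrArg (fun q => l.getD q 0) h6
        simp only [getD_pos hxl, getD_pos hρl] at h7
        exact h7
    rw [h1]
    obtain ⟨r', rfl⟩ : ∃ r', r = r' + 1 := ⟨r - 1, by omega⟩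
    have h2 := (hJM I hI).2
    by_cases h3 : ρ ∈ J I
    · rw [if_pos h3, Finset.card_erase_of_mem h3, h2, Nat.choose_succ_succ' r' 1, Nat.choose_one_right]
      simp only [Nat.add_sub_cancel]
      ring
    · rw [if_neg h3, Finset.erase_eq_of_notMem h3, h2]
      simp only [Nat.add_sub_cancel]
      ring
  -- first weight
  have hw1 : ∀ I, ∀ μ ∈ ((C.app (Net.gen l r)).flat.pol I).support,
      (μ.sum fun v n => (Sum.elim (fun i => if i ∈ C.blk ρ then r - 1 else 0) (bw C l r 1) v) * n) =
        r.choose 2 + (r - 1) * k ρ := by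
    intro I μ hμ
    have hI := hsupp I μ hμ
    rw [pol_weight C l r J Rp k hCJ _ 1 I hI μ hμ, one_mul, ← hκ₁ I hI]
    congr 1
    rw [← Finset.sum_filter, Finset.sum_const, Finset.filter_mem_eq_inter, smul_eq_mul, mul_comm]
  have hw2 : ∀ I, ∀ μ ∈ ((C.app (Net.gen l r)).flat.pol I).support,
      (μ.sum fun v n => (Sum.elim (fun i => ∑ a ∈ Finset.range l.length,
        (if i ∈ C.blk (l.getD a 0) then 1 else 0)) (bw C l r 0) v) * n) =
        ∑ a ∈ Finset.range l.length, k (l.getD a 0) + r := by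
    intro I μ hμ
    have hI := hsupp I μ hμ
    rw [pol_weight C l r J Rp k hCJ _ 0 I hI μ hμ, zero_mul, add_zero, ← hκ₂ I hI,
      Finset.sum_comm]
    apply Finset.sum_congr rfl
    intro a _
    rw [← Finset.card_filter, Finset.filter_mem_eq_inter]
  have e1 := hE3 (C.app (Net.gen l r)).flat N _ _ _ _ hw1 hN v
  have e2 := hE3 (C.app (Net.gen l r)).flat N _ _ _ _ hw2 hN v β₀ hβ₀
  refine ⟨β₀.sum fun g n => bw C l r 1 g * n, ?_, ?_⟩
  · apply Ht_homog
    intro β hβ
    exact Nat.add_left_cancel ((e1 β hβ).trans (e1 β₀ hβ₀).symm)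
  · have e1' := e1 β₀ hβ₀
    set dH := β₀.sum fun g n => bw C l r 1 g * n
    set V : ℕ → ℕ := fun a => ∑ i ∈ C.blk (l.getD a 0), v i with hV
    have hv1 : (v.sum fun i n => (if i ∈ C.blk ρ then r - 1 else 0) * n) =
        (r - 1) * V (l.length - 1) := by
      rw [hV, Finsupp.sum, Finset.mul_sum, ← hρ]
      rw [← Finset.sum_subset (Finset.inter_subset_left : v.support ∩ C.blk ρ ⊆ v.support),
        ← Finset.sum_subset (Finset.inter_subset_right : v.support ∩ C.blk ρ ⊆ C.blk ρ)]
      · apply Finset.sum_congr rfl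
        intro i hi
        rw [if_pos (Finset.mem_inter.1 hi).2]
      · intro i hi hi'
        have : v i = 0 := by
          by_contra h
          exact hi' (Finset.mem_inter.2 ⟨Finsupp.mem_support_iff.2 h, hi⟩)
        rw [this, mul_zero]
      · intro i hi hi'
        rw [if_neg (fun h => hi' (Finset.mem_inter.2 ⟨hi, h⟩)), zero_mul]
    have hv2 : (v.sum fun i n => (∑ a ∈ Finset.range l.length,
        (if i ∈ C.blk (l.getD a 0) then 1 else 0)) * n) = ∑ a ∈ Finset.range l.length, V a := by
      rw [Finsupp.sum]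
      simp only [Finset.sum_mul]
      rw [Finset.sum_comm]
      apply Finset.sum_congr rfl
      intro a _
      rw [hV]
      simp only [ite_mul, one_mul, zero_mul]
      rw [← Finset.sum_filter, Finset.filter_mem_eq_inter]
      apply Finset.sum_subset Finset.inter_subset_right
      intro i hi hi'
      by_contra h
      exact hi' (Finset.mem_inter.2 ⟨Finsupp.mem_support_iff.2 h, hi⟩)
    have hv3 : (β₀.sum fun g n => bw C l r 0 g * n) = 0 := by
      rw [Finsupp.sum]
      apply Finset.sum_eq_zero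
      intro g _
      rcases gap_cases C _ g with ⟨k, rfl⟩ | ⟨h, rfl⟩
      · rw [bw_gi, zero_mul]
      · rw [bw_go, zero_mul]
    rw [hv1] at e1'
    rw [hv2, hv3, add_zero] at e2
    -- integer identities
    set F : ℕ → ℕ := fun a => ∑ I ∈ M, f I a with hF
    set Pr : ℕ := ∑ I ∈ M, (Net.prs l (J I)).card with hPr
    have hWW : ∀ a, WW C l r n v a = (V a : ℤ) - n * F a := by
      intro a
      unfold WW ww
      rw [Finset.sum_sub_distrib, ← Finset.mul_sum, hV, hF, hf]
      push_cast
      congr 2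
      have h1 : ∀ i ∈ C.blk (l.getD a 0), (((C.app (Net.gen l r)).flat.M.filter
          fun I => i ∈ I).card : ℤ) = ∑ I ∈ M, (if i ∈ I then 1 else 0 : ℤ) := by
        intro i _
        rw [Finset.card_filter]
        push_cast
        rfl
      rw [Finset.sum_congr rfl h1, Finset.sum_comm]
      apply Finset.sum_congr rfl
      intro I _
      rw [Finset.inter_comm, ← Finset.filter_mem_eq_inter, Finset.card_filter]
      push_cast
      rfl
    have hsF : ∑ a ∈ Finset.range l.length, F a =
        M.card * (∑ a ∈ Finset.range l.length, k (l.getD a 0) + r) := by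
      rw [hF]
      simp only
      rw [Finset.sum_comm, Finset.sum_congr rfl hκ₂, Finset.sum_const, smul_eq_mul]
    have hPF : (r - 1) * F (l.length - 1) + Pr = M.card * (r.choose 2 + (r - 1) * k ρ) := by
      rw [hF, hPr, Finset.mul_sum, ← Finset.sum_add_distrib, Finset.sum_congr rfl hκ₁,
        Finset.sum_const, smul_eq_mul]
    have hkk : ∑ b ∈ Finset.range (l.length - 1), ∑ a ∈ Finset.range b, (kk C l r n J a b : ℤ) =
        n * Pr := by
      rw [hPr]
      push_cast
      rw [Finset.mul_sum]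
      have h1 : ∀ I, (((Net.prs l (J I)).card : ℕ) : ℤ) = ∑ b ∈ Finset.range (l.length - 1),
          ∑ a ∈ Finset.range b, (if l.getD a 0 ∈ J I ∧ l.getD b 0 ∈ J I then 1 else 0 : ℤ) := by
        intro I
        unfold Net.prs
        rw [Finset.card_filter, Finset.sum_product, Finset.sum_comm]
        push_cast
        apply Finset.sum_congr rfl
        intro b hb
        rw [Finset.mem_range] at hb
        rw [← Finset.sum_subset (Finset.range_subset_range.2 hb.le)]
        · apply Finset.sum_congr rfl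
          intro a ha
          rw [Finset.mem_range] at ha
          simp only [ha, true_and]
        · intro a _ ha
          rw [Finset.mem_range, not_lt] at ha
          rw [if_neg]
          rintro ⟨h2, -⟩
          omega
      have h2 : ∀ I ∈ M, (n : ℤ) * ((Net.prs l (J I)).card : ℤ) = ∑ b ∈ Finset.range (l.length - 1),
          ∑ a ∈ Finset.range b, ((n : ℤ) *
            (if l.getD a 0 ∈ J I ∧ l.getD b 0 ∈ J I then 1 else 0 : ℤ)) := by
        intro I _
        rw [h1 I]
        simp only [Finset.mul_sum]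
      rw [Finset.sum_congr rfl h2, Finset.sum_comm]
      apply Finset.sum_congr rfl
      intro b _
      rw [Finset.sum_comm]
      apply Finset.sum_congr rfl
      intro a _
      rw [← Finset.mul_sum]
      unfold kk
      push_cast
      rw [Finset.card_filter]
      push_cast
      rfl
    have hr' : ((r - 1 : ℕ) : ℤ) = (r : ℤ) - 1 := by
      push_cast [show 1 ≤ r by omega]
      ring
    have hlast : ∑ a ∈ Finset.range l.length, WW C l r n v a =
        ∑ a ∈ Finset.range (l.length - 1), WW C l r n v a + WW C l r n v (l.length - 1) := by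
      have h1 : l.length = (l.length - 1) + 1 := by omega
      conv_lhs => rw [h1]
      rw [Finset.sum_range_succ]
    have hzero : ∑ a ∈ Finset.range l.length, WW C l r n v a = 0 := by
      rw [Finset.sum_congr rfl (fun a _ => hWW a), Finset.sum_sub_distrib, ← Finset.mul_sum]
      have h1 : (∑ a ∈ Finset.range l.length, (V a : ℤ)) =
          (∑ a ∈ Finset.range l.length, (k (l.getD a 0) : ℤ) + r) * (n * M.card) := by
        exact_mod_cast e2
      have h2 : (∑ a ∈ Finset.range l.length, (F a : ℤ)) =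
          M.card * (∑ a ∈ Finset.range l.length, (k (l.getD a 0) : ℤ) + r) := by
        exact_mod_cast hsF
      rw [h1, h2]
      ring
    have e1'' : ((r : ℤ) - 1) * V (l.length - 1) + dH =
        (r.choose 2 + ((r : ℤ) - 1) * k ρ) * (n * M.card) := by
      rw [← hr']
      exact_mod_cast e1'
    have hPF' : ((r : ℤ) - 1) * F (l.length - 1) + Pr =
        M.card * (r.choose 2 + ((r : ℤ) - 1) * k ρ) := by
      rw [← hr']
      exact_mod_cast hPF
    rw [hkk]
    have h3 : ∑ a ∈ Finset.range (l.length - 1), WW C l r n v a =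
        -((V (l.length - 1) : ℤ) - n * F (l.length - 1)) := by
      rw [← hWW]
      linarith [hlast, hzero]
    rw [h3]
    linear_combination e1'' - (n : ℤ) * hPF'

end ABCT.H7
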