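import Pool.Agent.Helper7_ABCT.Clu

/-!
# Module VSTR of the squad ABCT: the structure lemma
-/

set_option autoImplicit false

namespace ABCT.H7

open Finset

theorem interval_list (l : List ℕ) (hl : l.Nodup) (C : Finset ℕ) (hC : C ⊆ l.toFinset)
    (hne : C.Nonempty) (hconv : ∀ x ∈ C, ∀ y ∈ C, ∀ w ∈ l, l.idxOf x < l.idxOf w →
      l.idxOf w < l.idxOf y → w ∈ C) :
    ∃ L A R : List ℕ, l = L ++ A ++ R ∧ A.toFinset = C ∧ A.length = C.card := by
  obtain ⟨x₀, hx₀, hmin⟩ := Finset.exists_min_image C (fun x => l.idxOf x) hne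
  obtain ⟨y₀, hy₀, hmax⟩ := Finset.exists_max_image C (fun x => l.idxOf x) hne
  have hCl : ∀ x ∈ C, x ∈ l := fun x hx => List.mem_toFinset.1 (hC hx)
  set s := l.idxOf x₀
  set m := l.idxOf y₀ + 1 - s with hm
  have hsm : s + m = l.idxOf y₀ + 1 := by
    have := hmin y₀ hy₀
    omega
  have hset : ((l.drop s).take m).toFinset = C := by
    ext x
    rw [List.mem_toFinset]
    constructor
    · intro hx
      obtain ⟨k, hk, rfl⟩ := List.mem_iff_getElem.1 hx
      have hk' : k < m ∧ s + k < l.length := by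
        simp only [List.length_take, List.length_drop] at hk
        omega
      have h1 : ((l.drop s).take m)[k] = l[s + k]'hk'.2 := by simp
      have h2 : l.idxOf (l[s + k]'hk'.2) = s + k := hl.idxOf_getElem _ _
      rw [h1]
      have hmem : l[s + k]'hk'.2 ∈ l := List.getElem_mem _
      rcases Nat.eq_zero_or_pos k with h0 | h0
      · have h3 : l[s + k]'hk'.2 = x₀ := by
          have h4 : l.idxOf (l[s + k]'hk'.2) = l.idxOf x₀ := by rw [h2, h0]; rfl
          have := congrArg (fun p => l.getD p 0) h4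
          simp only [getD_pos hmem, getD_pos (hCl x₀ hx₀)] at this
          exact this
        rw [h3]
        exact hx₀
      · rcases Nat.lt_or_ge (s + k) (l.idxOf y₀) with h5 | h5
        · exact hconv x₀ hx₀ y₀ hy₀ _ hmem (by rw [h2]; show s < s + k; omega) (by rw [h2]; exact h5)
        · have h6 : s + k = l.idxOf y₀ := by omega
          have h3 : l[s + k]'hk'.2 = y₀ := by
            have h4 : l.idxOf (l[s + k]'hk'.2) = l.idxOf y₀ := by rw [h2, h6]
            have := congrArg (fun p => l.getD p 0) h4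
            simp only [getD_pos hmem, getD_pos (hCl y₀ hy₀)] at this
            exact this
          rw [h3]
          exact hy₀
    · intro hx
      have h1 := hmin x hx
      have h2 := hmax x hx
      have h3 := pos_lt (hCl x hx)
      rw [List.mem_iff_getElem]
      refine ⟨l.idxOf x - s, ?_, ?_⟩
      · simp only [List.length_take, List.length_drop]
        show l.idxOf x - s < min m (l.length - s)
        have h1' : s ≤ l.idxOf x := h1
        have h2' : l.idxOf x ≤ l.idxOf y₀ := h2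
        omega
      · have h1' : s ≤ l.idxOf x := h1
        simp only [List.getElem_take, List.getElem_drop, Nat.add_sub_cancel' h1']
        exact List.getElem_idxOf _
  refine ⟨l.take s, (l.drop s).take m, l.drop (s + m), ?_, hset, ?_⟩
  · have h1 : l.drop (s + m) = (l.drop s).drop m := by rw [List.drop_drop]
    rw [h1, List.append_assoc, List.take_append_drop, List.take_append_drop]
  · rw [← hset, List.toFinset_card_of_nodup]
    exact (hl.sublist (List.drop_sublist _ _)).sublist (List.take_sublist _ _)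

section main

variable (l : List ℕ) (r : ℕ) (P : Finset ℕ → Prop) (A : Finset ℕ)

/-- number of elements of `A` before `x` -/
def cnt (x : ℕ) : ℕ := (A.filter (fun a => l.idxOf a < l.idxOf x)).card

/-- the gaps of `A` -/
def gap (j : ℕ) : Finset ℕ := (l.toFinset \ A).filter (fun x => cnt l A x % A.card = j)

theorem cnt_le (x : ℕ) : cnt l A x ≤ A.card := Finset.card_filter_le _ _

theorem cnt_mono {x y : ℕ} (h : l.idxOf x ≤ l.idxOf y) : cnt l A x ≤ cnt l A y := by
  apply Finset.card_le_card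
  intro a ha
  obtain ⟨h1, h2⟩ := Finset.mem_filter.1 ha
  exact Finset.mem_filter.2 ⟨h1, h2.trans_le h⟩

theorem mem_gap {x j : ℕ} : x ∈ gap l A j ↔ x ∈ l ∧ x ∉ A ∧ cnt l A x % A.card = j := by
  simp only [gap, mem_filter, mem_sdiff, List.mem_toFinset]
  tauto

theorem gap_disj (j : ℕ) : ∀ x ∈ gap l A j, x ∉ A := fun _ hx => ((mem_gap l A).1 hx).2.1

/-- elements of `A` separating two elements of different gaps -/
theorem separate {x y : ℕ} (hx : x ∈ l) (hy : y ∈ l) (hxA : x ∉ A) (hyA : y ∉ A)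
    (hAl : ∀ a ∈ A, a ∈ l) (hxy : l.idxOf x < l.idxOf y)
    (hne : cnt l A x % A.card ≠ cnt l A y % A.card) :
    (∃ a ∈ A, l.idxOf x < l.idxOf a ∧ l.idxOf a < l.idxOf y) ∧
      ∃ a ∈ A, l.idxOf a < l.idxOf x ∨ l.idxOf y < l.idxOf a := by
  have hinj : ∀ a ∈ A, ∀ u ∈ l, u ∉ A → l.idxOf a ≠ l.idxOf u := by
    intro a ha u hu huA h
    have := congrArg (fun p => l.getD p 0) h
    simp only [getD_pos (hAl a ha), getD_pos hu] at this
    exact huA (this ▸ ha)
  have h1 := cnt_mono l A hxy.le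
  have h2 : cnt l A x < cnt l A y := by
    rcases h1.eq_or_lt with h | h
    · rw [h] at hne
      exact absurd rfl hne
    · exact h
  constructor
  · by_contra hcon
    push Not at hcon
    have h3 : cnt l A y ≤ cnt l A x := by
      apply Finset.card_le_card
      intro a ha
      obtain ⟨h4, h5⟩ := Finset.mem_filter.1 ha
      refine Finset.mem_filter.2 ⟨h4, ?_⟩
      by_contra h6
      have h7 := hcon a h4 (lt_of_le_of_ne (not_lt.1 h6) (hinj a h4 x hx hxA).symm)
      omega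
    omega
  · by_contra hcon
    push Not at hcon
    have h3 : cnt l A x = 0 := by
      rw [cnt, Finset.card_eq_zero, Finset.filter_eq_empty_iff]
      intro a ha
      exact not_lt.2 (hcon a ha).1
    have h4 : cnt l A y = A.card := by
      rw [cnt]
      congr 1
      rw [Finset.filter_eq_self]
      intro a ha
      exact lt_of_le_of_ne (hcon a ha).2 (hinj a ha y hy hyA)
    rw [h3, h4, Nat.mod_self, Nat.zero_mod] at hne
    exact hne rfl

theorem conv_gap {j : ℕ} (hj : 1 ≤ j) : ∀ x ∈ gap l A j, ∀ y ∈ gap l A j, ∀ w ∈ l,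
    l.idxOf x < l.idxOf w → l.idxOf w < l.idxOf y → w ∈ gap l A j := by
  intro x hx y hy w hw hxw hwy
  obtain ⟨hxl, hxA, hxj⟩ := (mem_gap l A).1 hx
  obtain ⟨hyl, hyA, hyj⟩ := (mem_gap l A).1 hy
  have key : ∀ u, cnt l A u % A.card = j → cnt l A u = j := by
    intro u hu
    rcases (cnt_le l A u).eq_or_lt with h | h
    · rw [h, Nat.mod_self] at hu
      omega
    · rw [Nat.mod_eq_of_lt h] at hu
      exact hu
  have h1 := key x hxj
  have h2 := key y hyj
  have h3 := cnt_mono l A hxw.le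
  have h4 := cnt_mono l A hwy.le
  have h5 : cnt l A w = j := by omega
  rw [mem_gap]
  refine ⟨hw, ?_, ?_⟩
  · intro hwA
    have h6 : (A.filter (fun a => l.idxOf a < l.idxOf x)) ⊂
        (A.filter (fun a => l.idxOf a < l.idxOf y)) := by
      rw [Finset.ssubset_iff_of_subset]
      · refine ⟨w, Finset.mem_filter.2 ⟨hwA, hwy⟩, ?_⟩
        intro h7
        have := (Finset.mem_filter.1 h7).2
        omega
      · intro a ha
        obtain ⟨h7, h8⟩ := Finset.mem_filter.1 ha
        exact Finset.mem_filter.2 ⟨h7, by omega⟩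
    have h7 := Finset.card_lt_card h6
    have h1' : (A.filter (fun a => l.idxOf a < l.idxOf x)).card = j := h1
    have h2' : (A.filter (fun a => l.idxOf a < l.idxOf y)).card = j := h2
    omega
  · rw [h5, ← h1]
    exact hxj.trans h1.symm

theorem conv_compl : ∀ x ∈ l.toFinset \ gap l A 0, ∀ y ∈ l.toFinset \ gap l A 0, ∀ w ∈ l,
    l.idxOf x < l.idxOf w → l.idxOf w < l.idxOf y → w ∈ l.toFinset \ gap l A 0 := by
  intro x hx y hy w hw hxw hwy
  rw [Finset.mem_sdiff, List.mem_toFinset, mem_gap] at hx hy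
  rw [Finset.mem_sdiff, List.mem_toFinset, mem_gap]
  refine ⟨hw, ?_⟩
  rintro ⟨-, hwA, hw0⟩
  rcases (cnt_le l A w).eq_or_lt with h | h
  · -- all of `A` is before `w`
    have h1 : ∀ a ∈ A, l.idxOf a < l.idxOf w := by
      have : A.filter (fun a => l.idxOf a < l.idxOf w) = A :=
        Finset.eq_of_subset_of_card_le (Finset.filter_subset _ _) h.ge
      intro a ha
      rw [← this] at ha
      exact (Finset.mem_filter.1 ha).2
    apply hy.2
    refine ⟨hy.1, ?_, ?_⟩
    · intro hyA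
      have := h1 y hyA
      omega
    · have h2 := cnt_mono l A hwy.le
      have h3 := cnt_le l A y
      have h4 : cnt l A y = A.card := by omega
      rw [h4, Nat.mod_self]
  · rw [Nat.mod_eq_of_lt h] at hw0
    apply hx.2
    refine ⟨hx.1, ?_, ?_⟩
    · intro hxA
      have : x ∈ A.filter (fun a => l.idxOf a < l.idxOf w) := Finset.mem_filter.2 ⟨hxA, hxw⟩
      have h2 : 0 < cnt l A w := Finset.card_pos.2 ⟨x, this⟩
      omega
    · have h2 := cnt_mono l A hxw.le
      have h4 : cnt l A x = 0 := by omega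
      rw [h4, Nat.zero_mod]

variable (hsub : ∀ I, P I → ∀ x ∈ I, x ∈ l) (hcard : ∀ I, P I → I.card = r)
  (hex : ∀ I I' : Finset ℕ, P I → P I' → ∀ e ∈ I, e ∉ I' → ∃ f ∈ I', f ∉ I ∧
      P (insert f (I.erase e)) ∧ P (insert e (I'.erase f)))
  (h3t : ∀ (K : Finset ℕ) (x₁ x₂ x₃ x₄ : ℕ), x₁ ∈ l → x₂ ∈ l → x₃ ∈ l → x₄ ∈ l →
    l.idxOf x₁ < l.idxOf x₂ → l.idxOf x₂ < l.idxOf x₃ → l.idxOf x₃ < l.idxOf x₄ →
    x₁ ∉ K → x₂ ∉ K → x₃ ∉ K → x₄ ∉ K → P (insert x₁ (insert x₂ K)) →
    P (insert x₃ (insert x₄ K)) → P (insert x₁ (insert x₃ K)) ∧ P (insert x₂ (insert x₄ K)))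
  (hAl : ∀ a ∈ A, a ∈ l)
  (h1 : ∀ I I', P I → P I' → (I ∩ A).card ≤ (I' ∩ A).card + 1)
  (h2 : ∀ I, P I → ∀ a ∈ A, a ∈ I → ∀ b ∈ A, b ∉ I → P (insert b (I.erase a)))

include hsub h3t hAl h1 h2

theorem nodiff (I : Finset ℕ) (hI : P I) (b₁ b₂ : ℕ) (hb1 : b₁ ∈ I) (hb1A : b₁ ∉ A) (hb2 : b₂ ∉ I)
    (hb2A : b₂ ∉ A) (hI' : P (insert b₂ (I.erase b₁))) (hlo : 1 ≤ (I ∩ A).card)
    (hhi : (I ∩ A).card < A.card) : cnt l A b₁ % A.card = cnt l A b₂ % A.card := by
  by_contra hne
  have hb1l : b₁ ∈ l := hsub I hI b₁ hb1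
  have hb2l : b₂ ∈ l := hsub _ hI' b₂ (Finset.mem_insert_self _ _)
  have hb12 : b₁ ≠ b₂ := fun h => hb2 (h ▸ hb1)
  -- ordered version
  obtain ⟨x, y, hxl, hyl, hxA, hyA, hxy, hset, a₁, ha1, ha1x, ha1y, a₂, ha2, ha2'⟩ :
      ∃ x y, x ∈ l ∧ y ∈ l ∧ x ∉ A ∧ y ∉ A ∧ l.idxOf x < l.idxOf y ∧
        ((x = b₁ ∧ y = b₂) ∨ (x = b₂ ∧ y = b₁)) ∧
        ∃ a₁ ∈ A, l.idxOf x < l.idxOf a₁ ∧ l.idxOf a₁ < l.idxOf y ∧
        ∃ a₂ ∈ A, l.idxOf a₂ < l.idxOf x ∨ l.idxOf y < l.idxOf a₂ := by
    rcases Nat.lt_trichotomy (l.idxOf b₁) (l.idxOf b₂) with h | h | h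
    · obtain ⟨⟨a₁, h3, h4, h5⟩, a₂, h6, h7⟩ := separate l A hb1l hb2l hb1A hb2A hAl h hne
      exact ⟨b₁, b₂, hb1l, hb2l, hb1A, hb2A, h, Or.inl ⟨rfl, rfl⟩, a₁, h3, h4, h5, a₂, h6, h7⟩
    · exfalso
      have := congrArg (fun p => l.getD p 0) h
      simp only [getD_pos hb1l, getD_pos hb2l] at this
      exact hb12 this
    · obtain ⟨⟨a₁, h3, h4, h5⟩, a₂, h6, h7⟩ := separate l A hb2l hb1l hb2A hb1A hAl h
        (fun h => hne h.symm)
      exact ⟨b₂, b₁, hb2l, hb1l, hb2A, hb1A, h, Or.inr ⟨rfl, rfl⟩, a₁, h3, h4, h5, a₂, h6, h7⟩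
  have ha12 : a₁ ≠ a₂ := by
    rintro rfl
    omega
  -- the common part
  obtain ⟨A₁, hA₁, hA₁c⟩ : ∃ A₁ ⊆ (A.erase a₁).erase a₂, A₁.card = (I ∩ A).card - 1 := by
    apply Finset.exists_subset_card_eq
    rw [Finset.card_erase_of_mem (Finset.mem_erase.2 ⟨ha12.symm, ha2⟩),
      Finset.card_erase_of_mem ha1]
    omega
  have hA₁A : A₁ ⊆ A := hA₁.trans ((Finset.erase_subset _ _).trans (Finset.erase_subset _ _))
  have ha1A₁ : a₁ ∉ A₁ := fun h =>
    (Finset.mem_erase.1 (Finset.mem_of_mem_erase (hA₁ h))).1 rfl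
  have ha2A₁ : a₂ ∉ A₁ := fun h => (Finset.mem_erase.1 (hA₁ h)).1 rfl
  set K := A₁ ∪ (I \ A).erase b₁ with hK
  have hKA : K ∩ A = A₁ := by
    ext u
    simp only [hK, mem_inter, mem_union, mem_erase, mem_sdiff]
    constructor
    · rintro ⟨h3 | h3, h4⟩
      · exact h3
      · exact absurd h4 h3.2.2
    · intro h3
      exact ⟨Or.inl h3, hA₁A h3⟩
  have hb1K : b₁ ∉ K := by
    simp only [hK, mem_union, mem_erase, ne_eq, not_true_eq_false, false_and, or_false]
    exact fun h => hb1A (hA₁A h)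
  have hb2K : b₂ ∉ K := by
    simp only [hK, mem_union, mem_erase, mem_sdiff, not_or]
    exact ⟨fun h => hb2A (hA₁A h), fun h => hb2 h.2.1⟩
  have haK : ∀ a ∈ A, a ∉ A₁ → a ∉ K := by
    intro a ha haA₁ h
    apply haA₁
    rw [← hKA]
    exact Finset.mem_inter.2 ⟨h, ha⟩
  have hP1 : ∀ a ∈ A, a ∉ A₁ → P (insert a (insert b₁ K)) := by
    intro a ha haA₁
    have h3 := sym_replace P A h2 I (insert a A₁) hI (Finset.insert_subset ha hA₁A) (by
      rw [Finset.card_insert_of_notMem haA₁, hA₁c]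
      omega)
    have h4 : insert a A₁ ∪ (I \ A) = insert a (insert b₁ K) := by
      ext u
      simp only [hK, mem_union, mem_insert, mem_sdiff, mem_erase]
      by_cases hu : u = b₁
      · subst hu
        simp [hb1, hb1A]
      · simp only [hu, false_or, ne_eq, not_false_eq_true, true_and]
        tauto
    rw [h4] at h3
    exact h3
  have hP2 : ∀ a ∈ A, a ∉ A₁ → P (insert a (insert b₂ K)) := by
    intro a ha haA₁
    have h3 := sym_replace P A h2 (insert b₂ (I.erase b₁)) (insert a A₁) hI'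
      (Finset.insert_subset ha hA₁A) (by
      have h5 := card_swap I A b₁ b₂ hb1 hb2
      rw [if_neg hb1A, if_neg hb2A] at h5
      rw [Finset.card_insert_of_notMem haA₁, hA₁c]
      omega)
    have h4 : insert a A₁ ∪ ((insert b₂ (I.erase b₁)) \ A) = insert a (insert b₂ K) := by
      ext u
      simp only [hK, mem_union, mem_insert, mem_sdiff, mem_erase]
      by_cases hu : u = b₂
      · subst hu
        simp [hb2A]
      · simp only [hu, false_or]
        tauto
    rw [h4] at h3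
    exact h3
  have hxK : x ∉ K := by
    rcases hset with ⟨rfl, rfl⟩ | ⟨rfl, rfl⟩
    · exact hb1K
    · exact hb2K
  have hyK : y ∉ K := by
    rcases hset with ⟨rfl, rfl⟩ | ⟨rfl, rfl⟩
    · exact hb2K
    · exact hb1K
  have hPx : ∀ a ∈ A, a ∉ A₁ → P (insert a (insert x K)) := by
    rcases hset with ⟨rfl, rfl⟩ | ⟨rfl, rfl⟩
    · exact hP1
    · exact hP2
  have hPy : ∀ a ∈ A, a ∉ A₁ → P (insert a (insert y K)) := by
    rcases hset with ⟨rfl, rfl⟩ | ⟨rfl, rfl⟩
    · exact hP2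
    · exact hP1
  have hfin : P (insert a₁ (insert a₂ K)) ∧ P (insert x (insert y K)) := by
    rcases ha2' with h3 | h3
    · have h4 := h3t K a₂ x a₁ y (hAl a₂ ha2) hxl (hAl a₁ ha1) hyl h3 ha1x ha1y
        (haK a₂ ha2 ha2A₁) hxK (haK a₁ ha1 ha1A₁) hyK (hPx a₂ ha2 ha2A₁) (hPy a₁ ha1 ha1A₁)
      rw [Finset.insert_comm a₂ a₁] at h4
      exact h4
    · have h4 := h3t K x a₁ y a₂ hxl (hAl a₁ ha1) hyl (hAl a₂ ha2) ha1x ha1y h3
        hxK (haK a₁ ha1 ha1A₁) hyK (haK a₂ ha2 ha2A₁) (by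
          rw [Finset.insert_comm]
          exact hPx a₁ ha1 ha1A₁) (by
          rw [Finset.insert_comm]
          exact hPy a₂ ha2 ha2A₁)
      exact ⟨h4.2, h4.1⟩
  have h5 := h1 _ _ hfin.1 hfin.2
  have h6 : (insert a₁ (insert a₂ K) ∩ A).card = A₁.card + 2 := by
    rw [Finset.insert_inter_of_mem ha1, Finset.insert_inter_of_mem ha2, hKA,
      Finset.card_insert_of_notMem (by simp [ha12, ha1A₁]), Finset.card_insert_of_notMem ha2A₁]
  have h7 : (insert x (insert y K) ∩ A).card = A₁.card := by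
    rw [Finset.insert_inter_of_notMem hxA, Finset.insert_inter_of_notMem hyA, hKA]
  omega

include hcard hex

theorem const_gap_aux (j : ℕ) : ∀ (n : ℕ) (I I' : Finset ℕ), (I \ I').card = n → P I → P I' →
    I ∩ A = I' ∩ A → 1 ≤ (I ∩ A).card → (I ∩ A).card < A.card →
    (I ∩ gap l A j).card = (I' ∩ gap l A j).card := by
  intro n
  induction n with
  | zero =>
    intro I I' h0 hI hI' _ _ _
    have h3 : I ⊆ I' := Finset.sdiff_eq_empty_iff_subset.1 (Finset.card_eq_zero.1 h0)
    rw [Finset.eq_of_subset_of_card_le h3 (by rw [hcard I hI, hcard I' hI'])]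
  | succ n ih =>
    intro I I' hn hI hI' hA hlo hhi
    obtain ⟨e, he⟩ : (I \ I').Nonempty := Finset.card_pos.1 (by omega)
    rw [Finset.mem_sdiff] at he
    obtain ⟨f, hf, hf', hP, -⟩ := hex I I' hI hI' e he.1 he.2
    have heA : e ∉ A := by
      intro h
      have : e ∈ I' ∩ A := by
        rw [← hA]
        exact Finset.mem_inter.2 ⟨he.1, h⟩
      exact he.2 (Finset.mem_inter.1 this).1
    have hfA : f ∉ A := by
      intro h
      have : f ∈ I ∩ A := by
        rw [hA]
        exact Finset.mem_inter.2 ⟨hf, h⟩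
      exact hf' (Finset.mem_inter.1 this).1
    have hγ := nodiff l P A hsub h3t hAl h1 h2 I hI e f he.1 heA hf' hfA hP hlo hhi
    have h3 := card_swap I (gap l A j) e f he.1 hf'
    have h4 : e ∈ gap l A j ↔ f ∈ gap l A j := by
      rw [mem_gap, mem_gap]
      constructor
      · rintro ⟨-, -, h5⟩
        exact ⟨hsub I' hI' f hf, hfA, hγ ▸ h5⟩
      · rintro ⟨-, -, h5⟩
        exact ⟨hsub I hI e he.1, heA, hγ.symm ▸ h5⟩
    have h5 : (insert f (I.erase e) ∩ gap l A j).card = (I ∩ gap l A j).card := by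
      by_cases h6 : e ∈ gap l A j
      · rw [if_pos h6, if_pos (h4.1 h6)] at h3
        omega
      · rw [if_neg h6, if_neg (fun h => h6 (h4.2 h))] at h3
        omega
    have h6 : insert f (I.erase e) ∩ A = I ∩ A := by
      rw [Finset.insert_inter_of_notMem hfA, Finset.erase_inter, Finset.erase_eq_of_notMem]
      exact fun h => heA (Finset.mem_inter.1 h).2
    rw [← h5]
    apply ih _ _ _ hP hI'
    · rw [h6, hA]
    · rw [h6]
      exact hlo
    · rw [h6]
      exact hhi
    · have := card_sdiff_swap_left I I' f e hf he.1 he.2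
      omega

theorem const_gap (j : ℕ) (I I' : Finset ℕ) (hI : P I) (hI' : P I')
    (hA : (I ∩ A).card = (I' ∩ A).card) (hlo : 1 ≤ (I ∩ A).card) (hhi : (I ∩ A).card < A.card) :
    (I ∩ gap l A j).card = (I' ∩ gap l A j).card := by
  have h3 := sym_replace P A h2 I' (I ∩ A) hI' Finset.inter_subset_right hA
  have h4 : I ∩ A = (I ∩ A ∪ I' \ A) ∩ A := by
    ext u
    simp only [mem_inter, mem_union, mem_sdiff]
    tauto
  rw [const_gap_aux l r P A hsub hcard hex h3t hAl h1 h2 j _ I _ rfl hI h3 h4 hlo hhi]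
  congr 1
  ext u
  have := gap_disj l A j u
  simp only [mem_inter, mem_union, mem_sdiff]
  tauto

theorem shift_up (j : ℕ) (I₀ I : Finset ℕ) (hI₀ : P I₀) (hI : P I) (hlo : 1 ≤ (I₀ ∩ A).card)
    (hhi : (I₀ ∩ A).card < A.card) (hc : (I ∩ A).card = (I₀ ∩ A).card + 1) :
    (I ∩ gap l A j).card ≤ (I₀ ∩ gap l A j).card ∧
      (I₀ ∩ gap l A j).card ≤ (I ∩ gap l A j).card + 1 := by
  obtain ⟨A₀, hA₀, hA₀c⟩ : ∃ A₀ ⊆ I ∩ A, A₀.card = (I₀ ∩ A).card :=
    Finset.exists_subset_card_eq (by omega)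
  have hP₁ := sym_replace P A h2 I₀ A₀ hI₀ (hA₀.trans Finset.inter_subset_right) hA₀c
  obtain ⟨e, he, he'⟩ : ∃ e ∈ I ∩ A, e ∉ A₀ := by
    by_contra hcon
    push Not at hcon
    have := Finset.card_le_card (show I ∩ A ⊆ A₀ from hcon)
    omega
  rw [Finset.mem_inter] at he
  have he₁ : e ∉ A₀ ∪ I₀ \ A := by
    simp only [mem_union, mem_sdiff]
    tauto
  obtain ⟨f, hf, hf', hP, -⟩ := hex I _ hI hP₁ e he.1 he₁
  have hfA : f ∉ A := by
    intro h
    rcases Finset.mem_union.1 hf with h3 | h3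
    · exact hf' (Finset.mem_inter.1 (hA₀ h3)).1
    · exact (Finset.mem_sdiff.1 h3).2 h
  have h3 := card_swap I A e f he.1 hf'
  rw [if_pos he.2, if_neg hfA] at h3
  have h4 := const_gap l r P A hsub hcard hex h3t hAl h1 h2 j I₀ _ hI₀ hP (by omega) hlo hhi
  have h5 := card_swap I (gap l A j) e f he.1 hf'
  rw [if_neg (fun h => gap_disj l A j e h he.2)] at h5
  split_ifs at h5 <;> omega

theorem shift_down (j : ℕ) (I₀ I : Finset ℕ) (hI₀ : P I₀) (hI : P I) (hlo : 1 ≤ (I₀ ∩ A).card)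
    (hhi : (I₀ ∩ A).card < A.card) (hc : (I ∩ A).card + 1 = (I₀ ∩ A).card) :
    (I₀ ∩ gap l A j).card ≤ (I ∩ gap l A j).card ∧
      (I ∩ gap l A j).card ≤ (I₀ ∩ gap l A j).card + 1 := by
  obtain ⟨A₀, hA₀, hA₀', hA₀c⟩ : ∃ A₀, I ∩ A ⊆ A₀ ∧ A₀ ⊆ A ∧ A₀.card = (I₀ ∩ A).card :=
    Finset.exists_subsuperset_card_eq Finset.inter_subset_right (by omega) (by omega)
  have hP₁ := sym_replace P A h2 I₀ A₀ hI₀ hA₀' hA₀c
  obtain ⟨e, he, he'⟩ : ∃ e ∈ A₀, e ∉ I ∩ A := by
    by_contra hcon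
    push Not at hcon
    have := Finset.card_le_card (show A₀ ⊆ I ∩ A from hcon)
    omega
  have heA := hA₀' he
  have heI : e ∉ I := fun h => he' (Finset.mem_inter.2 ⟨h, heA⟩)
  obtain ⟨f, hf, hf', -, hP⟩ := hex _ I hP₁ hI e (Finset.mem_union_left _ he) heI
  have hfA : f ∉ A := by
    intro h
    exact hf' (Finset.mem_union_left _ (hA₀ (Finset.mem_inter.2 ⟨hf, h⟩)))
  have h3 := card_swap I A f e hf heI
  rw [if_pos heA, if_neg hfA] at h3
  have h4 := const_gap l r P A hsub hcard hex h3t hAl h1 h2 j I₀ _ hI₀ hP (by omega) hlo hhi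
  have h5 := card_swap I (gap l A j) f e hf heI
  rw [if_neg (fun h => gap_disj l A j e h heA)] at h5
  split_ifs at h5 <;> omega

theorem struct_abs (hl : l.Nodup) (hr : 2 ≤ r) (hn : r + 2 ≤ l.length) (hA2 : 2 ≤ A.card)
    (hAn : A.card + 2 ≤ l.length)
    (halive : ∀ i ∈ l, (∃ I, P I ∧ i ∈ I) ∧ (∃ I, P I ∧ i ∉ I)) :
    ∃ C ⊆ l.toFinset, 2 ≤ C.card ∧ C.card + 2 ≤ l.length ∧
      (∀ x ∈ C, ∀ y ∈ C, ∀ w ∈ l, l.idxOf x < l.idxOf w → l.idxOf w < l.idxOf y → w ∈ C) ∧
      ∃ d, ∀ I, P I → (I ∩ C).card = d ∨ (I ∩ C).card = d + 1 := by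
  have hcardl : l.toFinset.card = l.length := List.toFinset_card_of_nodup hl
  have hAsub : A ⊆ l.toFinset := fun a ha => List.mem_toFinset.2 (hAl a ha)
  -- a level in the middle
  obtain ⟨I₀, hI₀, hlo, hhi⟩ : ∃ I₀, P I₀ ∧ 1 ≤ (I₀ ∩ A).card ∧ (I₀ ∩ A).card < A.card := by
    obtain ⟨x, hx⟩ : A.Nonempty := Finset.card_pos.1 (by omega)
    obtain ⟨⟨I, hI, hxI⟩, ⟨I', hI', hxI'⟩⟩ := halive x (hAl x hx)
    have h3 : 1 ≤ (I ∩ A).card := Finset.card_pos.2 ⟨x, Finset.mem_inter.2 ⟨hxI, hx⟩⟩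
    have h4 : (I' ∩ A).card < A.card := by
      apply Finset.card_lt_card
      rw [Finset.ssubset_iff_of_subset Finset.inter_subset_right]
      exact ⟨x, hx, fun h => hxI' (Finset.mem_inter.1 h).1⟩
    have h5 : (I ∩ A).card ≤ A.card := Finset.card_le_card Finset.inter_subset_right
    rcases h5.eq_or_lt with h6 | h6
    · have h7 := h1 I I' hI hI'
      exact ⟨I', hI', by omega, h4⟩
    · exact ⟨I, hI, h3, h6⟩
  have hconst := const_gap l r P A hsub hcard hex h3t hAl h1 h2
  have hup := shift_up l r P A hsub hcard hex h3t hAl h1 h2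
  have hdown := shift_down l r P A hsub hcard hex h3t hAl h1 h2
  -- two consecutive values on every gap
  have htwo : ∀ j, ∃ d, ∀ I, P I → (I ∩ gap l A j).card = d ∨ (I ∩ gap l A j).card = d + 1 := by
    intro j
    by_cases hex1 : ∃ I₁, P I₁ ∧ (I₁ ∩ A).card = (I₀ ∩ A).card + 1
    · obtain ⟨I₁, hI₁, hc₁⟩ := hex1
      refine ⟨(I₀ ∩ gap l A j).card - 1, fun I hI => ?_⟩
      have h3 := h1 I₁ I hI₁ hI
      have h4 := h1 I I₀ hI hI₀
      rcases (show (I ∩ A).card = (I₀ ∩ A).card ∨ (I ∩ A).card = (I₀ ∩ A).card + 1 by omega)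
        with h5 | h5
      · have h6 := hconst j I₀ I hI₀ hI h5.symm hlo hhi
        omega
      · have h6 := hup j I₀ I hI₀ hI hlo hhi h5
        omega
    · refine ⟨(I₀ ∩ gap l A j).card, fun I hI => ?_⟩
      have h3 := h1 I₀ I hI₀ hI
      have h4 := h1 I I₀ hI hI₀
      have h5 : (I ∩ A).card ≠ (I₀ ∩ A).card + 1 := fun h => hex1 ⟨I, hI, h⟩
      rcases (show (I ∩ A).card = (I₀ ∩ A).card ∨ (I ∩ A).card + 1 = (I₀ ∩ A).card by omega)
        with h6 | h6
      · have h7 := hconst j I₀ I hI₀ hI h6.symm hlo hhi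
        omega
      · have h7 := hdown j I₀ I hI₀ hI hlo hhi h6
        omega
  by_cases hbig : ∃ j, 2 ≤ (gap l A j).card
  · obtain ⟨j, hj⟩ := hbig
    have hgsub : gap l A j ⊆ l.toFinset := fun x hx => List.mem_toFinset.2 ((mem_gap l A).1 hx).1
    have hdis : Disjoint A (gap l A j) := by
      rw [Finset.disjoint_left]
      intro x hx hx'
      exact gap_disj l A j x hx' hx
    have hun : A.card + (gap l A j).card ≤ l.length := by
      rw [← Finset.card_union_of_disjoint hdis, ← hcardl]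
      exact Finset.card_le_card (Finset.union_subset hAsub hgsub)
    rcases Nat.eq_zero_or_pos j with h0 | h0
    · subst h0
      refine ⟨l.toFinset \ gap l A 0, Finset.sdiff_subset, ?_, ?_, conv_compl l A, ?_⟩
      · rw [Finset.card_sdiff_of_subset hgsub, hcardl]
        omega
      · rw [Finset.card_sdiff_of_subset hgsub, hcardl]
        omega
      · obtain ⟨d, hd⟩ := htwo 0
        refine ⟨r - d - 1, fun I hI => ?_⟩
        have h3 : (I ∩ (l.toFinset \ gap l A 0)).card + (I ∩ gap l A 0).card = r := by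
          rw [← hcard I hI, ← Finset.card_union_of_disjoint]
          · congr 1
            ext x
            have := hsub I hI x
            rw [← List.mem_toFinset] at this
            simp only [mem_union, mem_inter, mem_sdiff]
            tauto
          · rw [Finset.disjoint_left]
            intro x hx hx'
            simp only [mem_inter, mem_sdiff] at hx hx'
            tauto
        have h4 := hd I hI
        omega
    · exact ⟨gap l A j, hgsub, hj, by omega, conv_gap l A h0, htwo j⟩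
  · exfalso
    push Not at hbig
    -- all gaps are singletons
    have hBc : (l.toFinset \ A).card + A.card = l.length := by
      rw [Finset.card_sdiff_of_subset hAsub, hcardl]
      have := Finset.card_le_card hAsub
      omega
    obtain ⟨b, hb, b', hb', hbb⟩ := Finset.one_lt_card.1 (show 1 < (l.toFinset \ A).card by omega)
    have hgapb : ∀ u ∈ l.toFinset \ A, gap l A (cnt l A u % A.card) = {u} := by
      intro u hu
      rw [Finset.mem_sdiff, List.mem_toFinset] at hu
      have h3 : u ∈ gap l A (cnt l A u % A.card) := (mem_gap l A).2 ⟨hu.1, hu.2, rfl⟩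
      have h4 := hbig (cnt l A u % A.card)
      exact Finset.eq_singleton_iff_unique_mem.2 ⟨h3, fun y hy =>
        Finset.card_le_one.1 (by omega) y hy u h3⟩
    have hind : ∀ u ∈ l.toFinset \ A, ∀ I : Finset ℕ,
        (I ∩ gap l A (cnt l A u % A.card)).card = if u ∈ I then 1 else 0 := by
      intro u hu I
      rw [hgapb u hu]
      split_ifs with h
      · rw [Finset.inter_singleton_of_mem h, Finset.card_singleton]
      · rw [Finset.inter_singleton_of_notMem h, Finset.card_empty]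
    have hsame : ∀ u ∈ l.toFinset \ A, ∀ I I', P I → P I' → (I ∩ A).card = (I' ∩ A).card →
        1 ≤ (I ∩ A).card → (I ∩ A).card < A.card → (u ∈ I ↔ u ∈ I') := by
      intro u hu I I' hI hI' hc hlo' hhi'
      have h3 := hconst (cnt l A u % A.card) I I' hI hI' hc hlo' hhi'
      rw [hind u hu, hind u hu] at h3
      by_cases h4 : u ∈ I
      · by_cases h5 : u ∈ I'
        · exact ⟨fun _ => h5, fun _ => h4⟩
        · rw [if_pos h4, if_neg h5] at h3
          omega
      · by_cases h5 : u ∈ I'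
        · rw [if_neg h4, if_pos h5] at h3
          omega
        · exact ⟨fun h => absurd h h4, fun h => absurd h h5⟩
    have hsplit : ∀ I, P I → (I ∩ A).card + (I \ A).card = r := by
      intro I hI
      rw [← hcard I hI, add_comm]
      exact Finset.card_sdiff_add_card_inter I A
    have hBsub : ∀ I, P I → I \ A ⊆ l.toFinset \ A := by
      intro I hI x hx
      rw [Finset.mem_sdiff] at hx ⊢
      exact ⟨List.mem_toFinset.2 (hsub I hI x hx.1), hx.2⟩
    by_cases hex1 : ∃ I₁, P I₁ ∧ (I₁ ∩ A).card = (I₀ ∩ A).card + 1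
    · obtain ⟨I₁, hI₁, hc₁⟩ := hex1
      have hlev : ∀ I, P I → (I ∩ A).card = (I₀ ∩ A).card ∨
          (I ∩ A).card = (I₀ ∩ A).card + 1 := by
        intro I hI
        have h3 := h1 I₁ I hI₁ hI
        have h4 := h1 I I₀ hI hI₀
        omega
      have hall : ∀ u ∈ l.toFinset \ A, u ∈ I₀ := by
        intro u hu
        by_contra hcon
        obtain ⟨I, hI, huI⟩ := (halive u (List.mem_toFinset.1 (Finset.mem_sdiff.1 hu).1)).1
        rcases hlev I hI with h3 | h3
        · exact hcon ((hsame u hu I₀ I hI₀ hI h3.symm hlo hhi).2 huI)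
        · have h4 := (hup (cnt l A u % A.card) I₀ I hI₀ hI hlo hhi h3).1
          rw [hind u hu, hind u hu, if_pos huI, if_neg hcon] at h4
          omega
      have hI₀B : I₀ \ A = l.toFinset \ A := by
        apply Finset.Subset.antisymm (hBsub I₀ hI₀)
        intro u hu
        exact Finset.mem_sdiff.2 ⟨hall u hu, (Finset.mem_sdiff.1 hu).2⟩
      have hr₀ := hsplit I₀ hI₀
      rw [hI₀B] at hr₀
      -- bases missing b, b'
      have hmiss : ∀ u ∈ l.toFinset \ A, ∃ I, P I ∧ u ∉ I ∧ (I ∩ A).card = (I₀ ∩ A).card + 1 := by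
        intro u hu
        obtain ⟨I, hI, huI⟩ := (halive u (List.mem_toFinset.1 (Finset.mem_sdiff.1 hu).1)).2
        refine ⟨I, hI, huI, ?_⟩
        rcases hlev I hI with h3 | h3
        · exact absurd ((hsame u hu I₀ I hI₀ hI h3.symm hlo hhi).1 (hall u hu)) huI
        · exact h3
      obtain ⟨Ib, hIb, hbIb, hcb⟩ := hmiss b hb
      obtain ⟨Ib', hIb', hbIb', hcb'⟩ := hmiss b' hb'
      have hrb := hsplit Ib hIb
      rcases Nat.lt_or_ge ((I₀ ∩ A).card + 1) A.card with h3 | h3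
      · have h4 : b' ∉ Ib := fun h => hbIb' ((hsame b' hb' Ib Ib' hIb hIb' (by omega) (by omega)
          (by omega)).1 h)
        have h5 : Ib \ A ⊆ ((l.toFinset \ A).erase b).erase b' := by
          intro x hx
          refine Finset.mem_erase.2 ⟨?_, Finset.mem_erase.2 ⟨?_, hBsub Ib hIb hx⟩⟩
          · rintro rfl
            exact h4 (Finset.mem_sdiff.1 hx).1
          · rintro rfl
            exact hbIb (Finset.mem_sdiff.1 hx).1
        have h6 := Finset.card_le_card h5
        rw [Finset.card_erase_of_mem (Finset.mem_erase.2 ⟨hbb.symm, hb'⟩),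
          Finset.card_erase_of_mem hb] at h6
        omega
      · omega
    · have hlev : ∀ I, P I → (I ∩ A).card = (I₀ ∩ A).card ∨
          (I ∩ A).card + 1 = (I₀ ∩ A).card := by
        intro I hI
        have h3 := h1 I₀ I hI₀ hI
        have h4 := h1 I I₀ hI hI₀
        have h5 : (I ∩ A).card ≠ (I₀ ∩ A).card + 1 := fun h => hex1 ⟨I, hI, h⟩
        omega
      have hall : ∀ u ∈ l.toFinset \ A, u ∉ I₀ := by
        intro u hu hcon
        obtain ⟨I, hI, huI⟩ := (halive u (List.mem_toFinset.1 (Finset.mem_sdiff.1 hu).1)).2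
        rcases hlev I hI with h3 | h3
        · exact huI ((hsame u hu I₀ I hI₀ hI h3.symm hlo hhi).1 hcon)
        · have h4 := (hdown (cnt l A u % A.card) I₀ I hI₀ hI hlo hhi h3).1
          rw [hind u hu, hind u hu, if_neg huI, if_pos hcon] at h4
          omega
      have hI₀B : I₀ \ A = ∅ := by
        rw [Finset.eq_empty_iff_forall_notMem]
        intro u hu
        exact hall u (hBsub I₀ hI₀ hu) (Finset.mem_sdiff.1 hu).1
      have hr₀ := hsplit I₀ hI₀
      rw [hI₀B, Finset.card_empty] at hr₀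
      have hhit : ∀ u ∈ l.toFinset \ A, ∃ I, P I ∧ u ∈ I ∧ (I ∩ A).card + 1 = (I₀ ∩ A).card := by
        intro u hu
        obtain ⟨I, hI, huI⟩ := (halive u (List.mem_toFinset.1 (Finset.mem_sdiff.1 hu).1)).1
        refine ⟨I, hI, huI, ?_⟩
        rcases hlev I hI with h3 | h3
        · exact absurd ((hsame u hu I₀ I hI₀ hI h3.symm hlo hhi).2 huI) (hall u hu)
        · exact h3
      obtain ⟨Ib, hIb, hbIb, hcb⟩ := hhit b hb
      obtain ⟨Ib', hIb', hbIb', hcb'⟩ := hhit b' hb'
      have hrb := hsplit Ib hIb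
      have h4 : b' ∈ Ib := (hsame b' hb' Ib Ib' hIb hIb' (by omega) (by omega) (by omega)).2 hbIb'
      have h5 : ({b, b'} : Finset ℕ) ⊆ Ib \ A := by
        intro x hx
        simp only [Finset.mem_insert, Finset.mem_singleton] at hx
        rcases hx with rfl | rfl
        · exact Finset.mem_sdiff.2 ⟨hbIb, (Finset.mem_sdiff.1 hb).2⟩
        · exact Finset.mem_sdiff.2 ⟨h4, (Finset.mem_sdiff.1 hb').2⟩
      have h6 := Finset.card_le_card h5
      rw [Finset.card_pair hbb] at h6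
      omega

end main

theorem vstr (hClu : ClusterStmt) (hPlu : PluckerStmt) : StructStmt := by
  intro l r hl hr hn z hz hnn halive hnot
  obtain ⟨A, hA, hA2, hAn, h1, h2⟩ := hClu l r hl hr hn z hz halive hnot
  obtain ⟨hP1, hP2, hP3⟩ := hPlu
  have hmem := hP1 l r z hz
  obtain ⟨C, hC, hC2, hCn, hconv, d, hd⟩ := struct_abs l r (fun I => z I ≠ 0) A
    (fun I hI x hx => List.mem_toFinset.1 ((Finset.mem_powersetCard.1 (hmem I hI)).1 hx))
    (fun I hI => (Finset.mem_powersetCard.1 (hmem I hI)).2)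
    (fun I I' hI hI' e he he' => hP2 l r hl z hz I I' hI hI' e he he')
    (by
      intro K x₁ x₂ x₃ x₄ hx1 hx2 hx3 hx4 h12 h23 h34 k1 k2 k3 k4 hp hp'
      have h3 := hP3 l r hl z hz K _ _ _ _ h12 h23 h34 (pos_lt hx4)
      rw [getD_pos hx1, getD_pos hx2, getD_pos hx3, getD_pos hx4] at h3
      have h4 := h3 k1 k2 k3 k4
      have h5 : 0 < z (insert x₁ (insert x₂ K)) := lt_of_le_of_ne (hnn _) (Ne.symm hp)
      have h6 : 0 < z (insert x₃ (insert x₄ K)) := lt_of_le_of_ne (hnn _) (Ne.symm hp')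
      have h7 := hnn (insert x₁ (insert x₄ K))
      have h8 := hnn (insert x₂ (insert x₃ K))
      have h9 : z (insert x₁ (insert x₃ K)) * z (insert x₂ (insert x₄ K)) ≠ 0 := by
        rw [h4]
        have := mul_pos h5 h6
        have := mul_nonneg h7 h8
        positivity
      exact ⟨left_ne_zero_of_mul h9, right_ne_zero_of_mul h9⟩)
    (fun a ha => List.mem_toFinset.1 (hA ha)) h1 h2 hl hr hn hA2 hAn
    (fun i hi => halive i hi)
  obtain ⟨L, B, R, hLR, hB, hBc⟩ := interval_list l hl C hC (Finset.card_pos.1 (by omega)) hconv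
  refine ⟨L, B, R, d, hLR, by omega, by omega, ?_⟩
  rw [hB]
  exact hd

end ABCT.H7
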