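import Pool.Agent.Helper7_ABCT.Clu
import Pool.Agent.Helper32_ABCT.EStmts

/-!
# Module TWC of the squad ABCT: reorderings of the nonroot labels give twists
-/

set_option autoImplicit false

namespace ABCT.H7

open MvPolynomial FlatCell

/-- pairs of nonroot labels in `J`, ordered by position -/
def op (m : List ℕ) (J : Finset ℕ) : Finset (ℕ × ℕ) :=
  (J ×ˢ J).filter fun p => m.idxOf p.1 < m.idxOf p.2 ∧ m.idxOf p.2 < m.length - 1

theorem mem_op {m : List ℕ} {J : Finset ℕ} {p : ℕ × ℕ} : p ∈ op m J ↔ p.1 ∈ J ∧ p.2 ∈ J ∧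
    m.idxOf p.1 < m.idxOf p.2 ∧ m.idxOf p.2 < m.length - 1 := by
  simp only [op, Finset.mem_filter, Finset.mem_product]
  tauto

theorem mem_prs {l : List ℕ} {I : Finset ℕ} {p : ℕ × ℕ} :
    p ∈ Net.prs l I ↔ p.1 < l.length - 1 ∧ p.2 < l.length - 1 ∧ p.1 < p.2 ∧ l.getD p.1 0 ∈ I ∧
      l.getD p.2 0 ∈ I := by
  simp only [Net.prs, Finset.mem_filter, Finset.mem_product, Finset.mem_range]
  tauto

theorem mem_of_pos {m : List ℕ} {x : ℕ} (h : m.idxOf x < m.length) : x ∈ m :=
  List.idxOf_lt_length_iff.1 h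

theorem prs_prod {R : Type*} [CommMonoid R] (m : List ℕ) (hm : m.Nodup) (J : Finset ℕ)
    (G : ℕ → ℕ → R) :
    ∏ p ∈ Net.prs m J, G (m.getD p.1 0) (m.getD p.2 0) = ∏ p ∈ op m J, G p.1 p.2 := by
  refine Finset.prod_nbij' (fun p => (m.getD p.1 0, m.getD p.2 0))
    (fun p => (m.idxOf p.1, m.idxOf p.2)) ?_ ?_ ?_ ?_ ?_
  · intro p hp
    obtain ⟨h1, h2, h3, h4, h5⟩ := mem_prs.1 hp
    rw [mem_op]
    simp only [pos_getD hm (show p.1 < m.length by omega), pos_getD hm (show p.2 < m.length by omega)]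
    exact ⟨h4, h5, h3, h2⟩
  · intro p hp
    obtain ⟨h1, h2, h3, h4⟩ := mem_op.1 hp
    have h5 : p.1 ∈ m := mem_of_pos (by omega)
    have h6 : p.2 ∈ m := mem_of_pos (by omega)
    rw [mem_prs]
    simp only [getD_pos h5, getD_pos h6]
    exact ⟨by omega, h4, h3, h1, h2⟩
  · intro p hp
    obtain ⟨h1, h2, h3, h4, h5⟩ := mem_prs.1 hp
    simp only [pos_getD hm (show p.1 < m.length by omega), pos_getD hm (show p.2 < m.length by omega)]
  · intro p hp
    obtain ⟨h1, h2, h3, h4⟩ := mem_op.1 hp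
    have h5 : p.1 ∈ m := mem_of_pos (by omega)
    have h6 : p.2 ∈ m := mem_of_pos (by omega)
    simp only [getD_pos h5, getD_pos h6]
  · intro p hp
    rfl

/-- reorder a pair by the positions in `m` -/
def swp (m : List ℕ) (p : ℕ × ℕ) : ℕ × ℕ := if m.idxOf p.1 < m.idxOf p.2 then p else (p.2, p.1)

theorem swp_mem (m m' : List ℕ) (hpos : ∀ x, m.idxOf x < m.length - 1 ↔ m'.idxOf x < m'.length - 1)
    (J : Finset ℕ) (p : ℕ × ℕ) (hp : p ∈ op m' J) : swp m p ∈ op m J := by
  obtain ⟨h1, h2, h3, h4⟩ := mem_op.1 hp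
  have h5 : m.idxOf p.2 < m.length - 1 := (hpos _).2 h4
  have h6 : m.idxOf p.1 < m.length - 1 := (hpos _).2 (by omega)
  have hne : m.idxOf p.1 ≠ m.idxOf p.2 := by
    intro h
    have h7 := congrArg (fun q => m.getD q 0) h
    simp only [getD_pos (mem_of_pos (show m.idxOf p.1 < m.length by omega)),
      getD_pos (mem_of_pos (show m.idxOf p.2 < m.length by omega))] at h7
    rw [h7] at h3
    exact lt_irrefl _ h3
  unfold swp
  rw [mem_op]
  split_ifs with h
  · exact ⟨h1, h2, h, h5⟩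
  · exact ⟨h2, h1, by simp only; omega, h6⟩

theorem swp_swp (m m' : List ℕ) (J : Finset ℕ) (p : ℕ × ℕ) (hp : p ∈ op m' J) :
    swp m' (swp m p) = p := by
  obtain ⟨h1, h2, h3, h4⟩ := mem_op.1 hp
  by_cases h : m.idxOf p.1 < m.idxOf p.2
  · rw [swp, swp, if_pos h, if_pos h3]
  · rw [swp, swp, if_neg h, if_neg (by simp only; omega)]

theorem sign_prod {R : Type*} [CommRing R] (m m' : List ℕ)
    (hpos : ∀ x, m.idxOf x < m.length - 1 ↔ m'.idxOf x < m'.length - 1) (t : ℕ → R)
    (J : Finset ℕ) : ∃ e : ℤ, (e = 1 ∨ e = -1) ∧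
      ∏ p ∈ op m' J, (t p.2 - t p.1) = (e : R) * ∏ p ∈ op m J, (t p.2 - t p.1) := by
  refine ⟨∏ p ∈ op m' J, (if m.idxOf p.1 < m.idxOf p.2 then 1 else -1), ?_, ?_⟩
  · refine Finset.prod_induction _ (fun e : ℤ => e = 1 ∨ e = -1) ?_ (Or.inl rfl) ?_
    · rintro a b (rfl | rfl) (rfl | rfl) <;> simp
    · intro p _
      split_ifs
      · exact Or.inl rfl
      · exact Or.inr rfl
  · have h1 : ∏ p ∈ op m J, (t p.2 - t p.1) = ∏ p ∈ op m' J, (t (swp m p).2 - t (swp m p).1) := by
      symm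
      refine Finset.prod_nbij' (fun p => swp m p) (fun p => swp m' p)
        (fun p hp => swp_mem m m' hpos J p hp)
        (fun p hp => swp_mem m' m (fun x => (hpos x).symm) J p hp)
        (fun p hp => swp_swp m m' J p hp) (fun p hp => swp_swp m' m J p hp) (fun p _ => rfl)
    rw [h1, Int.cast_prod, ← Finset.prod_mul_distrib]
    apply Finset.prod_congr rfl
    intro p _
    unfold swp
    split_ifs
    · simp
    · push_cast
      ring

theorem tel {R : Type*} [CommRing R] (n : ℕ) (f : ℕ → R) (a : ℕ) (ha : a ≤ n) :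
    ∑ h ∈ (Finset.univ : Finset (Fin n)).filter (fun h => h.1 < a), (f (h.1 + 1) - f h.1) =
      f a - f 0 := by
  rw [Finset.sum_filter, Fin.sum_univ_eq_sum_range (fun i => if i < a then f (i + 1) - f i else 0),
    ← Finset.sum_filter]
  have : (Finset.range n).filter (fun i => i < a) = Finset.range a := by
    ext i
    simp only [Finset.mem_filter, Finset.mem_range]
    omega
  rw [this, Finset.sum_range_sub]

theorem map_D (m : List ℕ) (hm : m.Nodup) (a b : ℕ) (hab : a < b) (hb : b < m.length - 1) :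
    MvPolynomial.map (Nat.castRingHom ℤ) (Net.D (m.length - 2) a b) =
      tv m (m.getD b 0) - tv m (m.getD a 0) := by
  rw [tv, tv, pos_getD hm (show a < m.length by omega), pos_getD hm (show b < m.length by omega)]
  rw [Net.D, map_sum, eq_sub_iff_add_eq]
  simp only [MvPolynomial.map_X]
  rw [← Finset.sum_union]
  · apply Finset.sum_congr _ (fun _ _ => rfl)
    ext h
    simp only [Finset.mem_union, Finset.mem_filter, Finset.mem_univ, true_and]
    omega
  · rw [Finset.disjoint_left]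
    intro h h1 h2
    simp only [Finset.mem_filter, Finset.mem_univ, true_and] at h1 h2
    omega

/-- the substitution on the generic vertex -/
noncomputable def sg (m m' : List ℕ) (k : Fin (m'.length - 2)) : MvPolynomial (Fin (m.length - 2)) ℤ :=
  tv m (m'.getD (k.1 + 1) 0) - tv m (m'.getD k.1 0)

theorem aeval_tv (m m' : List ℕ) (x : ℕ) (hx : m'.idxOf x < m'.length - 1) :
    aeval (sg m m') (tv m' x) = tv m x - tv m (m'.getD 0 0) := by
  rw [tv, map_sum]
  simp only [aeval_X, sg]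
  rw [tel (m'.length - 2) (fun i => tv m (m'.getD i 0)) (m'.idxOf x) (by omega),
    getD_pos (mem_of_pos (by omega))]

theorem gen_eq (m m' : List ℕ) (hm : m.Nodup) (hm' : m'.Nodup) (r : ℕ)
    (hpos : ∀ x, m.idxOf x < m.length - 1 ↔ m'.idxOf x < m'.length - 1)
    (hM : (Net.gen m r).M = (Net.gen m' r).M) (J : Finset ℕ) :
    ∃ e : ℤ, (e = 1 ∨ e = -1) ∧
      aeval (sg m m') (MvPolynomial.map (Nat.castRingHom ℤ) ((Net.gen m' r).Δ J)) =
        C e * MvPolynomial.map (Nat.castRingHom ℤ) ((Net.gen m r).Δ J) := by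
  by_cases hJ : J ∈ (Net.gen m r).M
  · obtain ⟨e, he, h1⟩ := sign_prod m m' hpos (tv m) J
    refine ⟨e, he, ?_⟩
    have h2 : (Net.gen m r).Δ J = ∏ p ∈ Net.prs m J, Net.D (m.length - 2) p.1 p.2 := if_pos hJ
    have h3 : (Net.gen m' r).Δ J = ∏ p ∈ Net.prs m' J, Net.D (m'.length - 2) p.1 p.2 :=
      if_pos (hM ▸ hJ)
    rw [h2, h3, map_prod, map_prod, map_prod]
    have h4 : ∏ p ∈ Net.prs m J, MvPolynomial.map (Nat.castRingHom ℤ)
        (Net.D (m.length - 2) p.1 p.2) = ∏ p ∈ op m J, (tv m p.2 - tv m p.1) := by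
      rw [← prs_prod m hm J (fun x y => tv m y - tv m x)]
      apply Finset.prod_congr rfl
      intro p hp
      obtain ⟨h5, h6, h7, -, -⟩ := mem_prs.1 hp
      exact map_D m hm p.1 p.2 h7 h6
    have h5 : ∏ p ∈ Net.prs m' J, aeval (sg m m') (MvPolynomial.map (Nat.castRingHom ℤ)
        (Net.D (m'.length - 2) p.1 p.2)) = ∏ p ∈ op m' J, (tv m p.2 - tv m p.1) := by
      rw [← prs_prod m' hm' J (fun x y => tv m y - tv m x)]
      apply Finset.prod_congr rfl
      intro p hp
      obtain ⟨h5, h6, h7, -, -⟩ := mem_prs.1 hp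
      rw [map_D m' hm' p.1 p.2 h7 h6, map_sub, aeval_tv, aeval_tv]
      · ring
      · rw [pos_getD hm' (by omega)]
        exact h5
      · rw [pos_getD hm' (by omega)]
        exact h6
    rw [h4, h5, h1]
    simp
  · refine ⟨1, Or.inl rfl, ?_⟩
    have h2 : (Net.gen m r).Δ J = 0 := if_neg hJ
    have h3 : (Net.gen m' r).Δ J = 0 := if_neg (hM ▸ hJ)
    rw [h2, h3]
    simp

section ctx

variable (C : Ctx) (m m' : List ℕ) (r : ℕ)

theorem twL_gi (k : Fin (m'.length - 2)) :
    twL C m m' r (C.gi (Net.gen m' r) k) = rename (C.gi (Net.gen m r)) (sg m m' k) := by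
  unfold twL Ctx.gi
  rw [Equiv.apply_symm_apply]
  rfl

theorem twL_go (h : C.R) :
    twL C m m' r (C.go (Net.gen m' r) h) = X (C.go (Net.gen m r) h) := by
  unfold twL Ctx.go
  rw [Equiv.apply_symm_apply]

theorem aeval_gi (P : MvPolynomial (Net.gen m' r).G ℤ) :
    aeval (twL C m m' r) (rename (C.gi (Net.gen m' r)) P) =
      rename (C.gi (Net.gen m r)) (aeval (sg m m') P) := by
  rw [aeval_rename]
  have h1 : (twL C m m' r) ∘ (C.gi (Net.gen m' r)) =
      fun k => rename (C.gi (Net.gen m r)) (sg m m' k) := by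
    funext k
    exact twL_gi C m m' r k
  rw [h1]
  exact (MvPolynomial.comp_aeval_apply (sg m m') (rename (C.gi (Net.gen m r))) P).symm

theorem aeval_go (P : MvPolynomial C.R ℤ) :
    aeval (twL C m m' r) (rename (C.go (Net.gen m' r)) P) = rename (C.go (Net.gen m r)) P := by
  rw [aeval_rename]
  have h1 : (twL C m m' r) ∘ (C.go (Net.gen m' r)) = fun h => X (C.go (Net.gen m r) h) := by
    funext k
    exact twL_go C m m' r k
  rw [h1]
  induction P using MvPolynomial.induction_on with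
  | C a => simp
  | add p q hp hq => rw [map_add, map_add, hp, hq]
  | mul_X p n hp => rw [map_mul, map_mul, hp, aeval_X, rename_X]

theorem tv_hom (x : ℕ) : (tv m x).IsHomogeneous 1 := by
  unfold tv
  exact IsHomogeneous.sum _ _ _ fun h _ => isHomogeneous_X _ _

theorem gap_cases (N : Net) (g : (C.app N).G) :
    (∃ k, g = C.gi N k) ∨ ∃ h, g = C.go N h := by
  rcases hg : C.ge N g with k | h
  · left
    exact ⟨k, by rw [Ctx.gi, ← hg, Equiv.symm_apply_apply]⟩
  · right
    exact ⟨h, by rw [Ctx.go, ← hg, Equiv.symm_apply_apply]⟩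

theorem twL_hom (g : (C.app (Net.gen m' r)).G) : (twL C m m' r g).IsHomogeneous 1 := by
  rcases gap_cases C _ g with ⟨k, rfl⟩ | ⟨h, rfl⟩
  · rw [twL_gi]
    apply IsHomogeneous.rename_isHomogeneous
    exact (tv_hom m _).sub (tv_hom m _)
  · rw [twL_go]
    exact isHomogeneous_X _ _

theorem aeval_sg_sg (hm : m.Nodup) (hpos : ∀ x, m.idxOf x < m.length - 1 → m'.idxOf x < m'.length - 1)
    (k : Fin (m.length - 2)) : aeval (sg m m') (sg m' m k) = X k := by
  have hk := k.2
  rw [sg, map_sub, aeval_tv, aeval_tv]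
  · have h2 : tv m (m.getD (k.1 + 1) 0) = ∑ h ∈ Finset.univ.filter
        (fun h : Fin (m.length - 2) => h.1 < k.1 + 1), X h := by
      rw [tv, pos_getD hm (show k.1 + 1 < m.length by omega)]
    have h3 : tv m (m.getD k.1 0) = ∑ h ∈ Finset.univ.filter
        (fun h : Fin (m.length - 2) => h.1 < k.1), X h := by
      rw [tv, pos_getD hm (show k.1 < m.length by omega)]
    rw [h2, h3]
    have h1 : (Finset.univ : Finset (Fin (m.length - 2))).filter (fun h => h.1 < k.1 + 1) =
        insert k ((Finset.univ : Finset (Fin (m.length - 2))).filter (fun h => h.1 < k.1)) := by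
      ext h
      simp only [Finset.mem_filter, Finset.mem_univ, true_and, Finset.mem_insert, Fin.ext_iff]
      omega
    rw [h1, Finset.sum_insert (by simp)]
    ring
  · exact hpos _ (by rw [pos_getD hm (by omega)]; omega)
  · exact hpos _ (by rw [pos_getD hm (by omega)]; omega)

theorem twL_inv (hm : m.Nodup) (hpos : ∀ x, m.idxOf x < m.length - 1 → m'.idxOf x < m'.length - 1)
    (g : (C.app (Net.gen m r)).G) : aeval (twL C m m' r) (twL C m' m r g) = X g := by
  rcases gap_cases C _ g with ⟨k, rfl⟩ | ⟨h, rfl⟩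
  · rw [twL_gi, aeval_gi, aeval_sg_sg m m' hm hpos, rename_X]
  · rw [twL_go, aeval_X, twL_go]

end ctx

theorem twc (hM : CtxMStmt) (hJ : CtxJStmt) (hV : VlamStmt) (hF : NfinStmt) : TwcStmt := by
  intro C l l' ρ r hval hperm
  set m := l ++ [ρ] with hmdef
  set m' := l' ++ [ρ] with hmdef'
  have hval₀ : (Net.gen m r).Valid := (hM C (Net.gen m r) (Net.gen m r) rfl rfl).2.2.2.2 hval
  obtain ⟨hm, hr1, hr2⟩ := hval₀
  have hpm : m.Perm m' := hperm.append_right [ρ]
  have hm' : m'.Nodup := hpm.nodup_iff.1 hm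
  have hlen : m.length = m'.length := hpm.length_eq
  have hE : (Net.gen m r).E = (Net.gen m' r).E := List.toFinset_eq_of_perm _ _ hpm
  have hMM : (Net.gen m r).M = (Net.gen m' r).M := by
    show m.toFinset.powersetCard r = m'.toFinset.powersetCard r
    rw [List.toFinset_eq_of_perm _ _ hpm]
  have hval₀' : (Net.gen m' r).Valid := ⟨hm', hr1, hlen ▸ hr2⟩
  obtain ⟨-, -, h3, h4, -⟩ := hM C (Net.gen m r) (Net.gen m' r) hE rfl
  have hval' : (C.app (Net.gen m' r)).Valid := h4 hMM hval₀' hval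
  have hpos1 : ∀ (l : List ℕ), (l ++ [ρ]).Nodup → ∀ x,
      (l ++ [ρ]).idxOf x < (l ++ [ρ]).length - 1 ↔ x ∈ l := by
    intro l hl x
    have h5 : (l ++ [ρ]).length - 1 = l.length := by simp
    rw [h5]
    by_cases hx : x ∈ l
    · rw [List.idxOf_append_of_mem hx]
      exact ⟨fun _ => hx, fun _ => List.idxOf_lt_length_iff.2 hx⟩
    · rw [List.idxOf_append_of_notMem hx]
      exact ⟨fun h => by omega, fun h => absurd h hx⟩
  have hpos : ∀ x, m.idxOf x < m.length - 1 ↔ m'.idxOf x < m'.length - 1 := by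
    intro x
    rw [hpos1 l hm x, hpos1 l' hm' x]
    exact hperm.mem_iff
  refine ⟨hval', ?_⟩
  obtain ⟨J, Rp, k, hJk⟩ := hJ C (Net.gen m r).E (Net.gen m r).M
  have hC1 := (hJk (Net.gen m r) rfl rfl hval).1
  have hC2 := (hJk (Net.gen m' r) hE.symm hMM.symm hval').1
  choose e he hee using gen_eq m m' hm hm' r hpos hMM
  have hMC := h3 hMM
  have hfS : Finite (C.app (Net.gen m r)).G := hF _
  have hfT : Finite (C.app (Net.gen m' r)).G := hF _
  have hfR : Finite C.R := by
    have : Finite ((Net.gen m r).G ⊕ C.R) := Finite.of_equiv _ (C.ge (Net.gen m r))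
    exact Finite.of_injective (fun h : C.R => (Sum.inr h : (Net.gen m r).G ⊕ C.R))
      Sum.inr_injective
  obtain ⟨i, hi⟩ : ∃ i : C.R → ℕ, Function.Injective i := by
    obtain ⟨n, ⟨f⟩⟩ := Finite.exists_equiv_fin C.R
    exact ⟨fun h => (f h).1, fun a b h => f.injective (Fin.ext h)⟩
  refine ⟨fun I => e (J I), ⟨hMC.symm, fun I => he _, ?_, ?_, ?_, ?_, ?_, hfS, hfT, ?_⟩⟩
  · intro g
    exact twL_hom C m m' r g
  · intro g
    exact twL_hom C m' m r g
  · intro g
    exact twL_inv C m m' r hm (fun x => (hpos x).1) g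
  · intro g
    exact twL_inv C m' m r hm' (fun x => (hpos x).2) g
  · intro I
    by_cases hI : I ∈ (C.app (Net.gen m r)).M
    · obtain ⟨-, -, h5, -⟩ := hC1 I hI
      obtain ⟨-, -, h6, -⟩ := hC2 I (hMC ▸ hI)
      show aeval (twL C m m' r) (MvPolynomial.map (Nat.castRingHom ℤ)
        ((C.app (Net.gen m' r)).Δ I)) = MvPolynomial.C (e (J I)) *
        MvPolynomial.map (Nat.castRingHom ℤ) ((C.app (Net.gen m r)).Δ I)
      rw [h5, h6, map_mul, map_mul, map_mul, map_rename, map_rename, map_rename, map_rename,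
        aeval_gi, aeval_go, hee, map_mul, rename_C, mul_assoc]
    · have h5 : (C.app (Net.gen m r)).Δ I = 0 := by
        by_contra h
        exact hI (((wfStmt _ hval).1.ne I).1 h)
      have h6 : (C.app (Net.gen m' r)).Δ I = 0 := by
        by_contra h
        exact hI (hMC ▸ (((wfStmt _ hval').1.ne I).1 h))
      show aeval (twL C m m' r) (MvPolynomial.map (Nat.castRingHom ℤ)
        ((C.app (Net.gen m' r)).Δ I)) = MvPolynomial.C (e (J I)) *
        MvPolynomial.map (Nat.castRingHom ℤ) ((C.app (Net.gen m r)).Δ I)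
      rw [h5, h6]
      simp
  · -- the blocks of gaps
    have key : ∀ (q : List ℕ), (C.app (Net.gen q r)).Valid → ∀ g g' : (C.app (Net.gen q r)).G,
        (Sum.elim (fun _ => 0) (fun h => i h + 1) (C.ge (Net.gen q r) g) : ℕ) =
          Sum.elim (fun _ => 0) (fun h => i h + 1) (C.ge (Net.gen q r) g') →
        (Finsupp.single (Sum.inr g) 1 - Finsupp.single (Sum.inr g') 1 :
          (C.app (Net.gen q r)).flat.V →₀ ℤ) ∈ (C.app (Net.gen q r)).flat.Lam := by
      intro q hq g g' hgg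
      rcases gap_cases C _ g with ⟨a, rfl⟩ | ⟨a, rfl⟩
      · rcases gap_cases C _ g' with ⟨b, rfl⟩ | ⟨b, rfl⟩
        · exact hV C q r hq a b
        · simp [Ctx.gi, Ctx.go] at hgg
      · rcases gap_cases C _ g' with ⟨b, rfl⟩ | ⟨b, rfl⟩
        · simp [Ctx.gi, Ctx.go] at hgg
        · have h5 : a = b := by
            simp only [Ctx.go, Equiv.apply_symm_apply, Sum.elim_inr] at hgg
            exact hi (by omega)
          rw [h5, sub_self]
          exact AddSubgroup.zero_mem _
    have key2 : ∀ (q q' : List ℕ) (g : (C.app (Net.gen q' r)).G), ∀ g' ∈ (twL C q q' r g).vars,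
        (Sum.elim (fun _ => 0) (fun h => i h + 1) (C.ge (Net.gen q r) g') : ℕ) =
          Sum.elim (fun _ => 0) (fun h => i h + 1) (C.ge (Net.gen q' r) g) := by
      intro q q' g g' hg'
      rcases gap_cases C _ g with ⟨a, rfl⟩ | ⟨a, rfl⟩
      · rw [twL_gi] at hg'
        classical
        have h5 := vars_rename _ _ hg'
        obtain ⟨b, -, rfl⟩ := Finset.mem_image.1 h5
        simp [Ctx.gi]
      · rw [twL_go, vars_X, Finset.mem_singleton] at hg'
        subst hg'
        simp [Ctx.go]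
    exact ⟨fun g => Sum.elim (fun _ => 0) (fun h => i h + 1) (C.ge (Net.gen m r) g),
      fun g => Sum.elim (fun _ => 0) (fun h => i h + 1) (C.ge (Net.gen m' r) g),
      key m hval, key m' hval', fun g g' hg' => key2 m m' g g' hg',
      fun g g' hg' => key2 m' m g g' hg'⟩

end ABCT.H7
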