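import Pool.Agent.Helper32_ABCT.Stmts

/-!
# Exchange combinatorics (modules VCLU, VSTR of the squad ABCT)
-/

set_option autoImplicit false

namespace ABCT.H7

open Finset

theorem card_swap (I A : Finset ℕ) (e f : ℕ) (he : e ∈ I) (hf : f ∉ I) :
    (insert f (I.erase e) ∩ A).card + (if e ∈ A then 1 else 0) =
      (I ∩ A).card + (if f ∈ A then 1 else 0) := by
  have h1 : (insert f (I.erase e) ∩ A).card = ((I ∩ A).erase e).card + (if f ∈ A then 1 else 0) := by
    by_cases hfA : f ∈ A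
    · rw [if_pos hfA, Finset.insert_inter_of_mem hfA, Finset.card_insert_of_notMem, Finset.erase_inter]
      simp [hf]
    · rw [if_neg hfA, Finset.insert_inter_of_notMem hfA, Finset.erase_inter, add_zero]
  rw [h1]
  by_cases heA : e ∈ A
  · rw [if_pos heA, Finset.card_erase_of_mem (Finset.mem_inter.2 ⟨he, heA⟩)]
    have : 0 < (I ∩ A).card := Finset.card_pos.2 ⟨e, Finset.mem_inter.2 ⟨he, heA⟩⟩
    omega
  · rw [if_neg heA, Finset.erase_eq_of_notMem]
    · omega
    · simp [heA]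

theorem card_sdiff_swap_right (I J : Finset ℕ) (e f : ℕ) (he : e ∈ I) (heJ : e ∉ J) (hf : f ∉ I) :
    (I \ insert e (J.erase f)).card + 1 = (I \ J).card := by
  have h1 : I \ insert e (J.erase f) = (I \ J).erase e := by
    ext x
    simp only [mem_sdiff, mem_insert, mem_erase, not_or, not_and]
    constructor
    · rintro ⟨h1, h2, h3⟩
      refine ⟨h2, h1, h3 ?_⟩
      rintro rfl
      exact hf h1
    · rintro ⟨h1, h2, h3⟩
      exact ⟨h2, h1, fun _ => h3⟩
  rw [h1, Finset.card_erase_of_mem (Finset.mem_sdiff.2 ⟨he, heJ⟩)]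
  have : 0 < (I \ J).card := Finset.card_pos.2 ⟨e, Finset.mem_sdiff.2 ⟨he, heJ⟩⟩
  omega

theorem card_sdiff_swap_left (I J : Finset ℕ) (e f : ℕ) (he : e ∈ J) (hf : f ∈ I) (hfJ : f ∉ J) :
    (insert e (I.erase f) \ J).card + 1 = (I \ J).card := by
  have h1 : insert e (I.erase f) \ J = (I \ J).erase f := by
    ext x
    simp only [mem_sdiff, mem_insert, mem_erase]
    constructor
    · rintro ⟨h1 | ⟨h1, h2⟩, h3⟩
      · exact absurd (h1 ▸ he) h3
      · exact ⟨h1, h2, h3⟩
    · rintro ⟨h1, h2, h3⟩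
      exact ⟨Or.inr ⟨h1, h2⟩, h3⟩
  rw [h1, Finset.card_erase_of_mem (Finset.mem_sdiff.2 ⟨hf, hfJ⟩)]
  have : 0 < (I \ J).card := Finset.card_pos.2 ⟨f, Finset.mem_sdiff.2 ⟨hf, hfJ⟩⟩
  omega

theorem card_swap_eq (I : Finset ℕ) (e f : ℕ) (he : e ∈ I) (hf : f ∉ I) :
    (insert f (I.erase e)).card = I.card := by
  rw [Finset.card_insert_of_notMem (by simp [hf]), Finset.card_erase_of_mem he]
  have : 0 < I.card := Finset.card_pos.2 ⟨e, he⟩
  omega

/-- closure under swaps inside `A` -/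
theorem sym_set (P : Finset ℕ → Prop) (A : Finset ℕ)
    (hS : ∀ I, P I → ∀ a ∈ A, a ∈ I → ∀ b ∈ A, b ∉ I → P (insert b (I.erase a))) :
    ∀ (n : ℕ) (I J : Finset ℕ), (I \ J).card = n → P I → I \ A = J \ A → I.card = J.card → P J := by
  intro n
  induction n with
  | zero =>
    intro I J h0 hI _ hc
    have h1 : I ⊆ J := Finset.sdiff_eq_empty_iff_subset.1 (Finset.card_eq_zero.1 h0)
    rw [← Finset.eq_of_subset_of_card_le h1 hc.ge]
    exact hI
  | succ n ih =>
    intro I J h0 hI hA hc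
    obtain ⟨a, ha⟩ : (I \ J).Nonempty := Finset.card_pos.1 (by omega)
    have h1 : (J \ I).card = (I \ J).card := by
      have := Finset.card_sdiff_add_card_inter I J
      have h2 := Finset.card_sdiff_add_card_inter J I
      rw [Finset.inter_comm J I] at h2
      omega
    obtain ⟨b, hb⟩ : (J \ I).Nonempty := Finset.card_pos.1 (by omega)
    rw [Finset.mem_sdiff] at ha hb
    have haA : a ∈ A := by
      by_contra haA
      have h2 : a ∈ J \ A := by
        rw [← hA]
        exact Finset.mem_sdiff.2 ⟨ha.1, haA⟩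
      exact ha.2 (Finset.mem_sdiff.1 h2).1
    have hbA : b ∈ A := by
      by_contra hbA
      have h2 : b ∈ I \ A := by
        rw [hA]
        exact Finset.mem_sdiff.2 ⟨hb.1, hbA⟩
      exact hb.2 (Finset.mem_sdiff.1 h2).1
    refine ih (insert b (I.erase a)) J ?_ (hS I hI a haA ha.1 b hbA hb.2) ?_ ?_
    · have := card_sdiff_swap_left I J b a hb.1 ha.1 ha.2
      omega
    · rw [← hA]
      ext x
      simp only [mem_sdiff, mem_insert, mem_erase]
      constructor
      · rintro ⟨h1 | ⟨h1, h2⟩, h3⟩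
        · exact absurd (h1 ▸ hbA) h3
        · exact ⟨h2, h3⟩
      · rintro ⟨h1, h3⟩
        refine ⟨Or.inr ⟨?_, h1⟩, h3⟩
        rintro rfl
        exact h3 haA
    · rw [card_swap_eq I a b ha.1 hb.2, hc]

/-- replacing the part in `A` -/
theorem sym_replace (P : Finset ℕ → Prop) (A : Finset ℕ)
    (hS : ∀ I, P I → ∀ a ∈ A, a ∈ I → ∀ b ∈ A, b ∉ I → P (insert b (I.erase a)))
    (I A₀ : Finset ℕ) (hI : P I) (hA₀ : A₀ ⊆ A) (hc : A₀.card = (I ∩ A).card) :
    P (A₀ ∪ (I \ A)) := by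
  refine sym_set P A hS _ I _ rfl hI ?_ ?_
  · ext x
    simp only [mem_sdiff, mem_union]
    constructor
    · rintro ⟨h1, h2⟩
      exact ⟨Or.inr ⟨h1, h2⟩, h2⟩
    · rintro ⟨h1 | h1, h2⟩
      · exact absurd (hA₀ h1) h2
      · exact h1
  · rw [Finset.card_union_of_disjoint, hc, ← Finset.card_sdiff_add_card_inter I A, add_comm]
    rw [Finset.disjoint_left]
    intro x hx hx'
    exact (Finset.mem_sdiff.1 hx').2 (hA₀ hx)

end ABCT.H7
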